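import Pool.Agent.Helper60.ZEA.Place
import Pool.Agent.Helper88.ZL

/-!
The analytic part: values of polynomials at quotients of `z ^ a - 1` by `z - 1`.
-/

namespace Pool.Agent.Helper60.ZEA

open MvPolynomial

variable {ι : Type}

/-- The value of `F` at `(n, x)`. -/
noncomputable def Fv {R : Type*} [CommRing R] (F : MvPolynomial (Option ι) ℤ) (n : ℕ)
    (x : ι → R) : R := aeval (fun o : Option ι => o.elim (n : R) x) F

theorem map_Fv {R S : Type*} [CommRing R] [CommRing S] (f : R →+* S)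
    (F : MvPolynomial (Option ι) ℤ) (n : ℕ) (x : ι → R) :
    f (Fv F n x) = Fv F n (fun i => f (x i)) := by
  unfold Fv
  have h1 := congrArg (fun g : MvPolynomial (Option ι) ℤ →ₐ[ℤ] S => g F)
    (MvPolynomial.comp_aeval (f := fun o : Option ι => o.elim (n : R) x) f.toIntAlgHom)
  have h2 : f (aeval (fun o : Option ι => o.elim (n : R) x) F) =
      aeval (fun i => f.toIntAlgHom ((fun o : Option ι => o.elim (n : R) x) i)) F := h1
  rw [h2]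
  congr 1
  refine congrArg aeval ?_
  funext o
  cases o with
  | none => exact map_natCast f n
  | some i => rfl

/-- A Lipschitz bound for `F` on balls. -/
def LipB (F : MvPolynomial (Option ι) ℤ) (C d : ℕ) : Prop :=
  ∀ (x y : Option ι → ℂ) (S δ : ℝ), 1 ≤ S → 0 ≤ δ → (∀ i, ‖x i‖ ^ 2 ≤ S) →
    (∀ i, ‖y i‖ ^ 2 ≤ S) → (∀ i, ‖x i - y i‖ ≤ δ) → ‖aeval x F - aeval y F‖ ≤ C * S ^ d * δ

theorem exists_LipB (F : MvPolynomial (Option ι) ℤ) : ∃ C d : ℕ, 1 ≤ C ∧ LipB F C d := by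
  obtain ⟨C, d, h⟩ := Pool.Agent.Helper88.ZL.lip F
  refine ⟨C + 1, d, by omega, fun x y S δ hS hδ hx hy hxy => ?_⟩
  refine (h x y S δ hS hδ hx hy hxy).trans ?_
  push_cast
  have h1 : 0 ≤ S ^ d * δ := by positivity
  nlinarith

variable [Fintype ι]

/-- The exponent of the sentence. -/
abbrev Dexp (d : ℕ) : ℕ := 2 * (d + 1)

/-- The constant of the sentence. -/
abbrev Cexp (C d : ℕ) : ℕ := 10 * 3 ^ (2 * (d + 1)) * C ^ 2

theorem lip_value {F : MvPolynomial (Option ι) ℤ} {CF d : ℕ} (hL : LipB F CF d)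
    {M : ℕ} (hM : 2 ≤ M) {a : ι → ℤ} (ha : ∀ i, 2 * |a i| ≤ M) {z : ℂ}
    (hz : z = Complex.exp (2 * Real.pi * Complex.I / M)) {X : ι → ℂ}
    (hX : ∀ i, X i * (z - 1) = z ^ (a i) - 1) (n : ℕ) :
    ‖Fv F n X - ((Fv F n a : ℤ) : ℂ)‖ ≤
      7 * CF * (1 + (n : ℝ) ^ 2 + ∑ i, (a i : ℝ) ^ 2) ^ (d + 1) / M := by
  set S : ℝ := 1 + (n : ℝ) ^ 2 + ∑ i, (a i : ℝ) ^ 2 with hS
  have hsum : 0 ≤ ∑ i, (a i : ℝ) ^ 2 := Finset.sum_nonneg fun i _ => sq_nonneg _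
  have hS1 : 1 ≤ S := by
    rw [hS]
    nlinarith [sq_nonneg (n : ℝ)]
  have hM0 : (0 : ℝ) < M := by
    have : 0 < M := by omega
    exact_mod_cast this
  have haS : ∀ i, (a i : ℝ) ^ 2 ≤ S := by
    intro i
    have := Finset.single_le_sum (f := fun i => (a i : ℝ) ^ 2) (fun i _ => sq_nonneg _)
      (Finset.mem_univ i)
    rw [hS]
    nlinarith [sq_nonneg (n : ℝ)]
  have h1 : ((Fv F n a : ℤ) : ℂ) = Fv F n (fun i => ((a i : ℤ) : ℂ)) :=
    map_Fv (Int.castRingHom ℂ) F n a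
  rw [h1]
  unfold Fv
  refine (hL _ _ S (7 * S / M) hS1 (by positivity) ?_ ?_ ?_).trans ?_
  · rintro (_ | i)
    · simp only [Option.elim_none]
      rw [Complex.norm_natCast, hS]
      linarith
    · simp only [Option.elim_some]
      have h2 := (Pool.Agent.Helper88.ZL.approx M hM (a i) (ha i) z (X i) hz (hX i)).2.1
      refine le_trans ?_ (haS i)
      rw [← sq_abs (a i : ℝ)]
      exact pow_le_pow_left₀ (norm_nonneg _) h2 2
  · rintro (_ | i)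
    · simp only [Option.elim_none]
      rw [Complex.norm_natCast, hS]
      linarith
    · simp only [Option.elim_some]
      rw [Complex.norm_intCast, sq_abs]
      exact haS i
  · rintro (_ | i)
    · simp only [Option.elim_none, sub_self, norm_zero]
      positivity
    · simp only [Option.elim_some]
      have h2 := (Pool.Agent.Helper88.ZL.approx M hM (a i) (ha i) z (X i) hz (hX i)).2.2
      refine h2.trans ?_
      gcongr
      exact haS i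
  · apply le_of_eq
    rw [pow_succ]
    ring

theorem anal_sound {F : MvPolynomial (Option ι) ℤ} {CF d : ℕ} (hC : 1 ≤ CF) (hL : LipB F CF d)
    {M : ℕ} (hM : 2 ≤ M) {a : ι → ℤ} (ha : ∀ i, 2 * |a i| ≤ M) {z : ℂ}
    (hz : z = Complex.exp (2 * Real.pi * Complex.I / M)) {X : ι → ℂ}
    (hX : ∀ i, X i * (z - 1) = z ^ (a i) - 1) {n : ℕ}
    (h : (Cexp CF d : ℝ) * (1 + (n : ℝ) ^ 2 + ∑ i, ‖X i‖ ^ 2) ^ (Dexp d) * ‖z - 1‖ ^ 2 +
      8 * ‖Fv F n X‖ ^ 2 ≤ 3 / 4) : Fv F n a = 0 := by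
  have hlip := lip_value hL hM ha hz hX n
  set S : ℝ := 1 + (n : ℝ) ^ 2 + ∑ i, (a i : ℝ) ^ 2 with hS
  set SX : ℝ := 1 + (n : ℝ) ^ 2 + ∑ i, ‖X i‖ ^ 2 with hSX
  have hM0 : (0 : ℝ) < M := by
    have : 0 < M := by omega
    exact_mod_cast this
  have hsum : 0 ≤ ∑ i, (a i : ℝ) ^ 2 := Finset.sum_nonneg fun i _ => sq_nonneg _
  have hS1 : 1 ≤ S := by
    rw [hS]
    nlinarith [sq_nonneg (n : ℝ)]
  have hS3 : S ≤ 3 * SX := by
    have h1 : ∑ i, (a i : ℝ) ^ 2 ≤ ∑ i, 3 * ‖X i‖ ^ 2 := by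
      refine Finset.sum_le_sum fun i _ => ?_
      have h2 := (Pool.Agent.Helper88.ZL.approx M hM (a i) (ha i) z (X i) hz (hX i)).1
      have h3 : (2 * |(a i : ℝ)|) ^ 2 ≤ (Real.pi * ‖X i‖) ^ 2 :=
        pow_le_pow_left₀ (by positivity) h2 2
      rw [mul_pow, mul_pow, sq_abs] at h3
      have h4 : Real.pi ^ 2 ≤ 12 := by
        have := Real.pi_lt_d2
        nlinarith [Real.pi_pos]
      nlinarith [sq_nonneg ‖X i‖]
    rw [← Finset.mul_sum] at h1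
    rw [hS, hSX]
    nlinarith [sq_nonneg (n : ℝ)]
  have hCF : (1 : ℝ) ≤ CF := by exact_mod_cast hC
  have h4 : 4 / (M : ℝ) ≤ ‖z - 1‖ := (Pool.Agent.Helper88.ZL.approx' M hM z hz).1
  -- the bound for `M`
  have h5 : (Cexp CF d : ℝ) * (S / 3) ^ (Dexp d) * (4 / M) ^ 2 ≤ 3 / 4 := by
    have h6 : (Cexp CF d : ℝ) * (S / 3) ^ (Dexp d) * (4 / M) ^ 2 ≤
        (Cexp CF d : ℝ) * SX ^ (Dexp d) * ‖z - 1‖ ^ 2 := by
      gcongr
      linarith
    nlinarith [sq_nonneg ‖Fv F n X‖]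
  have h7 : 14 * CF * S ^ (d + 1) ≤ M := by
    have h8 : (Cexp CF d : ℝ) * (S / 3) ^ (Dexp d) * (4 / M) ^ 2 =
        160 * (CF * S ^ (d + 1)) ^ 2 / M ^ 2 := by
      push_cast
      rw [div_pow]
      have h3 : (3 : ℝ) ^ (2 * (d + 1)) ≠ 0 := by positivity
      field_simp
      ring
    rw [h8, div_le_iff₀ (by positivity)] at h5
    have h9 : 0 ≤ CF * S ^ (d + 1) := by positivity
    by_contra hcon
    rw [not_le] at hcon
    nlinarith
  have h8 : ‖Fv F n X - ((Fv F n a : ℤ) : ℂ)‖ ≤ 1 / 2 := by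
    refine hlip.trans ?_
    rw [div_le_iff₀ hM0]
    linarith
  have h9 : ‖Fv F n X‖ < 1 / 2 := by
    have h10 : 0 ≤ (Cexp CF d : ℝ) * SX ^ (Dexp d) * ‖z - 1‖ ^ 2 := by
      have : 0 ≤ SX := by linarith
      positivity
    by_contra hcon
    rw [not_lt] at hcon
    nlinarith [norm_nonneg (Fv F n X)]
  have h10 : ‖((Fv F n a : ℤ) : ℂ)‖ < 1 := by
    have h11 := norm_sub_norm_le (((Fv F n a : ℤ) : ℂ)) (Fv F n X)
    rw [norm_sub_rev] at h11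
    linarith
  rw [Complex.norm_intCast] at h10
  have h11 : |Fv F n a| < 1 := by exact_mod_cast h10
  exact Int.abs_lt_one_iff.1 h11

theorem anal_compl {F : MvPolynomial (Option ι) ℤ} {CF d : ℕ} (hL : LipB F CF d)
    (C D : ℕ) {a : ι → ℤ} {n : ℕ} (hF : Fv F n a = 0) :
    ∃ P : ℕ, ∀ M : ℕ, P ≤ M → 2 ≤ M ∧ (∀ i, 2 * |a i| ≤ M) ∧ ∀ (z : ℂ) (X : ι → ℂ),
      z = Complex.exp (2 * Real.pi * Complex.I / M) → (∀ i, X i * (z - 1) = z ^ (a i) - 1) →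
      (C : ℝ) * (1 + (n : ℝ) ^ 2 + ∑ i, ‖X i‖ ^ 2) ^ D * ‖z - 1‖ ^ 2 +
      8 * ‖Fv F n X‖ ^ 2 ≤ 1 / 2 := by
  set S : ℝ := 1 + (n : ℝ) ^ 2 + ∑ i, (a i : ℝ) ^ 2 with hS
  have hsum : 0 ≤ ∑ i, (a i : ℝ) ^ 2 := Finset.sum_nonneg fun i _ => sq_nonneg _
  have hS1 : 1 ≤ S := by
    rw [hS]
    nlinarith [sq_nonneg (n : ℝ)]
  obtain ⟨P, hP⟩ := exists_nat_ge ((C : ℝ) * S ^ D * 49 * 4 + 56 * CF * S ^ (d + 1))
  refine ⟨P + 2 + 2 * ∑ i, (a i).natAbs, fun M hM => ?_⟩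
  have hM2 : 2 ≤ M := by omega
  have haM : ∀ i, 2 * |a i| ≤ M := by
    intro i
    have h1 := Finset.single_le_sum (f := fun i => (a i).natAbs) (fun i _ => Nat.zero_le _)
      (Finset.mem_univ i)
    have h2 : 2 * (a i).natAbs ≤ M := by omega
    rw [← Int.natCast_natAbs]
    exact_mod_cast h2
  refine ⟨hM2, haM, fun z X hz hX => ?_⟩
  have hlip := lip_value hL hM2 haM hz hX n
  rw [hF] at hlip
  simp only [Int.cast_zero, sub_zero] at hlip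
  rw [← hS] at hlip
  have hM0 : (0 : ℝ) < M := by
    have : 0 < M := by omega
    exact_mod_cast this
  have hM1 : (1 : ℝ) ≤ M := by
    have : 1 ≤ M := by omega
    exact_mod_cast this
  have hPM : (P : ℝ) ≤ M := by
    have : P ≤ M := by omega
    exact_mod_cast this
  have h1 : 0 ≤ (C : ℝ) * S ^ D := by positivity
  have h2 : 0 ≤ (CF : ℝ) * S ^ (d + 1) := by positivity
  have h3 : ‖z - 1‖ ≤ 7 / M := (Pool.Agent.Helper88.ZL.approx' M hM2 z hz).2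
  have h4 : (C : ℝ) * (1 + (n : ℝ) ^ 2 + ∑ i, ‖X i‖ ^ 2) ^ D * ‖z - 1‖ ^ 2 ≤ 1 / 4 := by
    have h5 : (C : ℝ) * (1 + (n : ℝ) ^ 2 + ∑ i, ‖X i‖ ^ 2) ^ D * ‖z - 1‖ ^ 2 ≤
        C * S ^ D * (7 / M) ^ 2 := by
      have h6 : 1 + (n : ℝ) ^ 2 + ∑ i, ‖X i‖ ^ 2 ≤ S := by
        rw [hS]
        have : ∑ i, ‖X i‖ ^ 2 ≤ ∑ i, (a i : ℝ) ^ 2 := by
          refine Finset.sum_le_sum fun i _ => ?_
          have h2 := (Pool.Agent.Helper88.ZL.approx M hM2 (a i) (haM i) z (X i) hz (hX i)).2.1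
          rw [← sq_abs (a i : ℝ)]
          exact pow_le_pow_left₀ (norm_nonneg _) h2 2
        linarith
      have h7 : 0 ≤ 1 + (n : ℝ) ^ 2 + ∑ i, ‖X i‖ ^ 2 := by positivity
      gcongr
    refine h5.trans ?_
    rw [div_pow, mul_div_assoc', div_le_iff₀ (by positivity)]
    have h8 : (M : ℝ) ≤ M ^ 2 := by nlinarith
    nlinarith
  have h5 : ‖Fv F n X‖ ≤ 1 / 8 := by
    refine hlip.trans ?_
    rw [div_le_iff₀ hM0]
    nlinarith
  have h6 : ‖Fv F n X‖ ^ 2 ≤ 1 / 64 := by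
    have := norm_nonneg (Fv F n X)
    nlinarith
  nlinarith

end Pool.Agent.Helper60.ZEA
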