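import Pool.Agent.Helper60.ZEA.Real

/-!
Completeness of the Diophantine definition of `ℤ^ab ∩ ℝ`.
-/

namespace Pool.Agent.Helper60.ZEA

open Pool.Agent.Helper63.ZabUnd Complex IntermediateField Polynomial

/-- The square root of two. -/
theorem exists_sqrt_two : ∃ ρ : Zab, ρ ^ 2 = 2 := by
  obtain ⟨ζ, hζ⟩ := exists_primitive (p := 8) (by norm_num)
  have h4 : ζ ^ 4 = -1 := by
    have h1 : (ζ ^ 4) ^ 2 = 1 := by rw [← pow_mul]; exact hζ.pow_eq_one
    have h2 : ζ ^ 4 ≠ 1 := fun h => hζ.pow_ne_one_of_pos_of_lt (by norm_num) (by norm_num) h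
    have h3 : (ζ ^ 4 - 1) * (ζ ^ 4 + 1) = 0 := by linear_combination h1
    exact eq_neg_of_add_eq_zero_left ((mul_eq_zero.1 h3).resolve_left (sub_ne_zero.2 h2))
  refine ⟨ζ + ζ ^ 7, ?_⟩
  have h8 : ζ ^ 8 = 1 := hζ.pow_eq_one
  linear_combination (2 + ζ ^ 6) * h8 + ζ ^ 2 * h4

/-- There are real units different from `1` which are congruent to `1` modulo any integer. -/
theorem exists_unit_congr (n : ℤ) (hn : n ≠ 0) :
    ∃ v v' t : Zab, v * v' = 1 ∧ v ≠ 1 ∧ v - 1 = n * t := by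
  obtain ⟨ρ, hρ⟩ := exists_sqrt_two
  set u : Zab := 1 + ρ with hu
  set u' : Zab := ρ - 1 with hu'
  have huu : u * u' = 1 := by rw [hu, hu']; linear_combination hρ
  have hne : ∀ k : ℕ, 0 < k → u ^ k ≠ 1 := by
    intro k hk h
    have h1 : ((u : Zab) : ℂ) ∈ rootsU := ⟨k, hk, by simpa using congrArg Subtype.val h⟩
    have h2 := rootsU_norm h1
    have h3 : (ρ : ℂ) ^ 2 = 2 := by
      have := congrArg Subtype.val hρ
      have h2' : ((2 : Zab) : ℂ) = 2 := map_ofNat Zab.subtype 2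
      rw [h2'] at this
      exact this
    have h4 : ((Real.sqrt 2 : ℝ) : ℂ) ^ 2 = 2 := by
      rw [← Complex.ofReal_pow, Real.sq_sqrt (by norm_num)]
      simp
    have h5 : (ρ : ℂ) = (Real.sqrt 2 : ℝ) ∨ (ρ : ℂ) = -(Real.sqrt 2 : ℝ) := by
      apply sq_eq_sq_iff_eq_or_eq_neg.1
      rw [h3, h4]
    have h6 : (1 : ℝ) < Real.sqrt 2 := by
      rw [show (1 : ℝ) = Real.sqrt 1 by simp]
      exact Real.sqrt_lt_sqrt (by norm_num) (by norm_num)
    have h7 : Real.sqrt 2 < 2 := by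
      rw [show (2 : ℝ) = Real.sqrt (2 ^ 2) by simp]
      exact Real.sqrt_lt_sqrt (by norm_num) (by norm_num)
    have h8 : ((u : Zab) : ℂ) = 1 + (ρ : ℂ) := rfl
    rw [h8] at h2
    rcases h5 with h5 | h5
    · rw [h5, ← Complex.ofReal_one, ← Complex.ofReal_add, Complex.norm_real,
        Real.norm_eq_abs, abs_of_pos (by linarith)] at h2
      linarith
    · rw [h5, ← Complex.ofReal_one, ← Complex.ofReal_neg, ← Complex.ofReal_add,
        Complex.norm_real, Real.norm_eq_abs, abs_of_neg (by linarith)] at h2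
      linarith
  have hab : ∀ k : ℕ, ∃ a b : ℤ, u ^ k = a + b * ρ := by
    intro k
    induction k with
    | zero => exact ⟨1, 0, by simp⟩
    | succ k ih =>
      obtain ⟨a, b, h⟩ := ih
      refine ⟨a + 2 * b, a + b, ?_⟩
      rw [pow_succ, h, hu]
      push_cast
      linear_combination (b : Zab) * hρ
  choose a b hab using hab
  have : NeZero n.natAbs := ⟨Int.natAbs_ne_zero.2 hn⟩
  obtain ⟨k, l, hkl, he⟩ := Finite.exists_ne_map_eq_of_infinite
    (fun k : ℕ => ((a k : ZMod n.natAbs), (b k : ZMod n.natAbs)))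
  wlog hlt : k < l generalizing k l
  · exact this l k hkl.symm he.symm (lt_of_le_of_ne (not_lt.1 hlt) hkl.symm)
  have h1 : (a k : ZMod n.natAbs) = a l := congrArg Prod.fst he
  have h2 : (b k : ZMod n.natAbs) = b l := congrArg Prod.snd he
  have h3 : n ∣ a l - a k := by
    have := (ZMod.intCast_eq_intCast_iff_dvd_sub _ _ _).1 h1
    rwa [Int.natCast_natAbs, abs_dvd] at this
  have h4 : n ∣ b l - b k := by
    have := (ZMod.intCast_eq_intCast_iff_dvd_sub _ _ _).1 h2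
    rwa [Int.natCast_natAbs, abs_dvd] at this
  obtain ⟨c, hc⟩ := h3
  obtain ⟨d, hd⟩ := h4
  obtain ⟨m, rfl⟩ : ∃ m, l = k + m := ⟨l - k, by omega⟩
  have hpow : u ^ k * u' ^ k = 1 := by rw [← mul_pow, huu, one_pow]
  refine ⟨u ^ m, u' ^ m, (c + d * ρ) * u' ^ k, by rw [← mul_pow, huu, one_pow],
    hne m (by omega), ?_⟩
  have h5 : u ^ k * u ^ m - u ^ k = n * (c + d * ρ) := by
    rw [← pow_add, hab, hab k]
    have hc' := congrArg (Int.cast : ℤ → Zab) hc
    have hd' := congrArg (Int.cast : ℤ → Zab) hd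
    push_cast at hc' hd'
    linear_combination hc' + ρ * hd'
  linear_combination u' ^ k * h5 + (1 - u ^ m) * hpow

theorem R1_int (n : ℤ) (hn : n ≠ 0) : R1 (n : Zab) := by
  obtain ⟨v, v', t, hv, hv1, ht⟩ := exists_unit_congr (6 * n) (mul_ne_zero (by norm_num) hn)
  let w : Zabˣ := ⟨v, v', hv, by rw [mul_comm, hv]⟩
  obtain ⟨q, hq⟩ := zpow_expansion w n
  have hw : (w : Zab) = v := rfl
  rw [hw] at hq
  push_cast at ht
  refine ⟨((w ^ n : Zabˣ) : Zab), ((w ^ (-n) : Zabˣ) : Zab), v, v',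
    2 * n * t * (n + q * (v - 1)), t, q, ?_, hv, ?_, by rw [ht], hv1, hq⟩
  · rw [← Units.val_mul, ← zpow_add, add_neg_cancel, zpow_zero, Units.val_one]
  · linear_combination hq + (n + q * (v - 1)) * ht

theorem Rk_int (n : ℤ) : Rk (n : Zab) := by
  by_cases h : n + 1 = 0
  · refine ⟨((n + 2 : ℤ) : Zab), ((2 : ℤ) : Zab), R1_int _ (by omega), R1_int _ (by norm_num), ?_⟩
    push_cast
    ring
  · refine ⟨((n + 1 : ℤ) : Zab), ((1 : ℤ) : Zab), R1_int _ h, R1_int _ one_ne_zero, ?_⟩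
    push_cast
    ring

section Alg

variable {R : Type*} [CommRing R]

theorem pow_add_pow (ζ ζ' : R) (h : ζ * ζ' = 1) (k : ℕ) :
    (∃ H : ℤ[X], ζ ^ k + ζ' ^ k = ev (ζ + ζ') H) ∧
      ∃ H : ℤ[X], ζ ^ (k + 1) + ζ' ^ (k + 1) = ev (ζ + ζ') H := by
  induction k with
  | zero =>
    refine ⟨⟨C 2, ?_⟩, ⟨X, ?_⟩⟩
    · simp [ev]
      norm_num
    · simp [ev]
  | succ k ih =>
    obtain ⟨⟨H1, h1⟩, H2, h2⟩ := ih
    refine ⟨⟨H2, h2⟩, X * H2 - H1, ?_⟩
    have e1 : ev (ζ + ζ') (X * H2 - H1) = (ζ + ζ') * ev (ζ + ζ') H2 - ev (ζ + ζ') H1 := by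
      simp [ev]
    rw [e1, ← h1, ← h2]
    linear_combination -(ζ ^ k + ζ' ^ k) * h

theorem ev_add (z : R) (G H : ℤ[X]) : ev z (G + H) = ev z G + ev z H := by simp [ev]

theorem ev_mul (z : R) (G H : ℤ[X]) : ev z (G * H) = ev z G * ev z H := by simp [ev]

theorem ev_C (z : R) (c : ℤ) : ev z (C c) = c := by
  unfold ev
  rw [eval₂_C, eq_intCast]

theorem ev_X (z : R) : ev z X = z := by simp [ev]

theorem ev_int (c : ℤ) (G : ℤ[X]) : ev (c : R) G = ((G.eval c : ℤ) : R) := by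
  have := map_ev (Int.castRingHom R) c G
  rw [eq_intCast, eq_intCast] at this
  rw [← this]
  congr 1

theorem sub_dvd_ev_sub (a b : R) (G : ℤ[X]) : a - b ∣ ev a G - ev b G := by
  have := Polynomial.sub_dvd_eval_sub a b (G.map (Int.castRingHom R))
  rwa [Polynomial.eval_map, Polynomial.eval_map] at this

/-- Symmetric expressions in `ζ, ζ⁻¹` are polynomials in `ζ + ζ⁻¹`. -/
theorem ev_symm (ζ ζ' : R) (h : ζ * ζ' = 1) (G : ℤ[X]) :
    ∃ H : ℤ[X], ev ζ G + ev ζ' G = ev (ζ + ζ') H := by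
  induction G using Polynomial.induction_on' with
  | add f g hf hg =>
    obtain ⟨F, hF⟩ := hf
    obtain ⟨G, hG⟩ := hg
    refine ⟨F + G, ?_⟩
    rw [ev_add, ev_add, ev_add, ← hF, ← hG]
    ring
  | monomial n a =>
    obtain ⟨⟨H, hH⟩, -⟩ := pow_add_pow ζ ζ' h n
    refine ⟨C a * H, ?_⟩
    rw [ev_mul, ev_C, ← hH]
    simp [ev, eval₂_monomial]
    ring

/-- Modulo `c w - 1`, the integer `c` has an integer as inverse. -/
theorem exists_inv_mod (c : ℤ) (w : R) (hw : IsIntegral ℤ w) :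
    ∃ c' : ℤ, ((c : R) * w - 1) ∣ (c : R) * c' - 1 := by
  obtain ⟨P, hP, hPw⟩ := hw
  have hPw' : ev w P = 0 := hPw
  set Q := scaleRoots P c with hQ
  have h1 : ev ((c : R) * w) Q = 0 := by
    have := scaleRoots_eval₂_eq_zero (p := P) (Int.castRingHom R) (r := w) (s := c) hPw
    rw [eq_intCast] at this
    exact this
  have h2 : ((c : R) * w - 1) ∣ ((Q.eval 1 : ℤ) : R) := by
    have h3 := sub_dvd_ev_sub ((c : R) * w) 1 Q
    rw [h1, zero_sub, dvd_neg] at h3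
    have h4 := ev_int (R := R) 1 Q
    rw [Int.cast_one] at h4
    rwa [h4] at h3
  have h5 : ∃ q : ℤ, Q.eval 1 = 1 + c * q := by
    rw [eval_eq_sum_range, hQ, natDegree_scaleRoots, Finset.sum_range_succ]
    refine ⟨∑ x ∈ Finset.range P.natDegree, P.coeff x * c ^ (P.natDegree - x - 1), ?_⟩
    rw [coeff_scaleRoots, hP.coeff_natDegree, Nat.sub_self, Finset.mul_sum, add_comm]
    congr 1
    · simp
    · refine Finset.sum_congr rfl fun x hx => ?_
      rw [coeff_scaleRoots, one_pow, mul_one]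
      have h6 : P.natDegree - x = (P.natDegree - x - 1) + 1 := by
        have := Finset.mem_range.1 hx
        omega
      conv_lhs => rw [h6]
      rw [pow_succ]
      ring
  obtain ⟨q, hq⟩ := h5
  refine ⟨-q, ?_⟩
  rw [hq] at h2
  have h7 : (c : R) * ((-q : ℤ) : R) - 1 = -((1 + c * q : ℤ) : R) := by
    push_cast
    ring
  rw [h7, dvd_neg]
  exact h2

/-- If `c θ` is an integral polynomial in `w`, then `θ` is congruent to an integer modulo
`c w - 1`. -/
theorem exists_int_mod (c : ℤ) (w θ : R) (hw : IsIntegral ℤ w) (H : ℤ[X])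
    (hH : (c : R) * θ = ev w H) : ∃ B : ℤ, ((c : R) * w - 1) ∣ (B : R) - θ := by
  obtain ⟨c', hc'⟩ := exists_inv_mod c w hw
  have h1 : ((c : R) * w - 1) ∣ w - c' := by
    have : w - c' = w * -((c : R) * c' - 1) + c' * (c * w - 1) := by ring
    rw [this]
    exact dvd_add (Dvd.dvd.mul_left ((dvd_neg).2 hc') _) (Dvd.intro_left _ rfl)
  have h2 : ((c : R) * w - 1) ∣ ev w H - ev (c' : R) H := h1.trans (sub_dvd_ev_sub _ _ _)
  refine ⟨c' * H.eval c', ?_⟩
  have h3 : (((c' * H.eval c' : ℤ)) : R) - θ =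
      -(c' : R) * (ev w H - ev (c' : R) H) + θ * ((c : R) * c' - 1) := by
    rw [ev_int, ← hH]
    push_cast
    ring
  rw [h3]
  exact dvd_add (h2.mul_left _) (hc'.mul_left _)

end Alg

end Pool.Agent.Helper60.ZEA
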