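import Pool.Agent.Helper60.ZEA.Compl

/-!
Completeness of the Diophantine definition of `ℤ^ab ∩ ℝ`, conclusion.
-/

namespace Pool.Agent.Helper60.ZEA

open Pool.Agent.Helper63.ZabUnd Complex IntermediateField Polynomial

/-- For some integer `j` the element `θ` lies in the field generated by `z + j θ`. -/
theorem exists_gen {z θ : ℂ} (hθ : IsIntegral ℤ θ) (hz : z ∈ ℚ⟮θ⟯) :
    ∃ j : ℤ, θ ∈ ℚ⟮z + j * θ⟯ := by
  have hfin : FiniteDimensional ℚ ℚ⟮θ⟯ := IntermediateField.adjoin.finiteDimensional hθ.tower_top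
  have hf : Finite (IntermediateField ℚ ℚ⟮θ⟯) :=
    Field.finite_intermediateField_of_exists_primitive_element ℚ ℚ⟮θ⟯
      (Field.exists_primitive_element ℚ ℚ⟮θ⟯)
  let zF : ℚ⟮θ⟯ := ⟨z, hz⟩
  let θF : ℚ⟮θ⟯ := ⟨θ, IntermediateField.mem_adjoin_simple_self _ _⟩
  obtain ⟨i, j, hij, he⟩ := Finite.exists_ne_map_eq_of_infinite
    (fun j : ℤ => ℚ⟮zF + j * θF⟯)
  have h1 : zF + i * θF ∈ ℚ⟮zF + i * θF⟯ := IntermediateField.mem_adjoin_simple_self _ _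
  have h2 : zF + j * θF ∈ ℚ⟮zF + i * θF⟯ := by
    have he' : ℚ⟮zF + i * θF⟯ = ℚ⟮zF + j * θF⟯ := he
    rw [he']
    exact IntermediateField.mem_adjoin_simple_self _ _
  have h3 : ((i - j : ℤ) : ℚ⟮θ⟯) * θF ∈ ℚ⟮zF + i * θF⟯ := by
    have := sub_mem h1 h2
    have e : zF + i * θF - (zF + j * θF) = ((i - j : ℤ) : ℚ⟮θ⟯) * θF := by
      push_cast
      ring
    rwa [e] at this
  have h4 : θF ∈ ℚ⟮zF + i * θF⟯ := by
    have h5 : ((i - j : ℤ) : ℚ⟮θ⟯) ≠ 0 := Int.cast_ne_zero.2 (sub_ne_zero.2 hij)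
    have h6 := mul_mem (inv_mem (IntermediateField.intCast_mem ℚ⟮zF + i * θF⟯ (i - j))) h3
    rwa [inv_mul_cancel_left₀ h5] at h6
  refine ⟨i, ?_⟩
  have h7 := (IntermediateField.mem_lift (E := ℚ⟮zF + i * θF⟯) θF).2 h4
  rw [IntermediateField.lift_adjoin_simple] at h7
  have h8 : ((zF + i * θF : ℚ⟮θ⟯) : ℂ) = z + i * θ := by simp [zF, θF]
  rw [h8] at h7
  exact h7

theorem RR_of_real {z : Zab} (h : cj z = z) : RR z := by
  obtain ⟨n, hn, ζc, hζ, hx⟩ := exists_cyclotomic z.2.1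
  have hζU : ζc ∈ rootsU := ⟨n, hn, hζ.pow_eq_one⟩
  obtain ⟨D, hD, G, hG⟩ := exists_int_poly (rootsU_integral hζU) hx
  let ζ : Zab := ⟨ζc, rootsU_mem_Zab hζU⟩
  let ζ' : Zab := ⟨ζc⁻¹, rootsU_mem_Zab (rootsU_inv hζU)⟩
  have hinv : ζ * ζ' = 1 := Subtype.ext (mul_inv_cancel₀ (rootsU_ne_zero hζU))
  have hG' : (D : Zab) * z = ev ζ G := by
    ext
    rw [coe_ev]
    simpa using hG
  have hG2 : (D : Zab) * z = ev ζ' G := by
    have h1 := congrArg cj hG'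
    rw [map_mul, map_intCast, h] at h1
    rw [h1]
    exact conjZ_ev hζU hinv G
  obtain ⟨H, hH⟩ := ev_symm ζ ζ' hinv G
  set θ := ζ + ζ' with hθ
  have h2D : ((2 * D : ℤ) : Zab) * z = ev θ H := by
    rw [← hH, ← hG', ← hG2]
    push_cast
    ring
  -- z lies in ℚ(θ)
  have hevmem : ∀ (x : Zab) (P : ℤ[X]), ((ev x P : Zab) : ℂ) ∈ ℚ⟮(x : ℂ)⟯ := by
    intro x P
    rw [coe_ev]
    have h1 := map_ev (algebraMap ℚ⟮(x : ℂ)⟯ ℂ) (AdjoinSimple.gen ℚ (x : ℂ)) P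
    have h2 : (algebraMap ℚ⟮(x : ℂ)⟯ ℂ) (AdjoinSimple.gen ℚ (x : ℂ)) = x := rfl
    rw [h2] at h1
    rw [← h1]
    exact (ev (AdjoinSimple.gen ℚ (x : ℂ)) P).2
  have hzθ : (z : ℂ) ∈ ℚ⟮(θ : ℂ)⟯ := by
    have h1 : (z : ℂ) = ((2 * D : ℤ) : ℂ)⁻¹ * ((ev θ H : Zab) : ℂ) := by
      have h3 : ((2 * D : ℤ) : ℂ) ≠ 0 := Int.cast_ne_zero.2 (mul_ne_zero two_ne_zero hD)
      have h4 := congrArg Subtype.val h2D
      rw [← h4]
      have h5 : ((((2 * D : ℤ) : Zab) * z : Zab) : ℂ) = ((2 * D : ℤ) : ℂ) * (z : ℂ) := by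
        rw [Subring.coe_mul]
        congr 1
      rw [h5, inv_mul_cancel_left₀ h3]
    rw [h1]
    exact mul_mem (inv_mem (IntermediateField.intCast_mem _ _)) (hevmem θ H)
  obtain ⟨j, hj⟩ := exists_gen θ.2.2 hzθ
  obtain ⟨w, hw⟩ : ∃ w : Zab, w = z + j * θ := ⟨_, rfl⟩
  have hwc : (w : ℂ) = z + j * θ := by rw [hw]; simp
  rw [← hwc] at hj
  obtain ⟨D', hD', H', hH'⟩ := exists_int_poly w.2.2 hj
  have hH'' : (D' : Zab) * θ = ev w H' := by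
    ext
    rw [coe_ev]
    simpa using hH'
  -- the integer `N` and the two polynomials
  set N : ℤ := 2 * D * D' with hN
  have hN0 : N ≠ 0 := mul_ne_zero (mul_ne_zero two_ne_zero hD) hD'
  set G2 : ℤ[X] := C D' * (H + C (2 * D * j) * X) with hG2'
  have e1 : (N : Zab) * w = ev θ G2 := by
    rw [hG2', ev_mul, ev_add, ev_mul, ev_C, ev_C, ev_X, ← h2D, hw, hN]
    push_cast
    ring
  have e2 : ((6 * N : ℤ) : Zab) * θ = ev w (C (12 * D) * H') := by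
    rw [ev_mul, ev_C, ← hH'', hN]
    push_cast
    ring
  obtain ⟨B, hB⟩ := exists_int_mod (6 * N) w θ (isIntegral_Zab w) _ e2
  obtain ⟨b, hb⟩ := hB
  obtain ⟨a, ha⟩ := sub_dvd_ev_sub θ (B : Zab) G2
  refine ⟨ζ, ζ', N, j, B, ((6 * G2.eval B : ℤ) : Zab), -a, b, hζU, hinv, Rk_int N, Rk_int j,
    Rk_int B, Rk_int _, Int.cast_ne_zero.2 hN0, ?_, ?_⟩
  · rw [← hθ, ← hw]
    rw [ev_int, ← e1] at ha
    push_cast
    linear_combination 6 * ha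
  · rw [← hθ, ← hw, hb]
    push_cast
    ring

/-- The Diophantine definition of `ℤ^ab ∩ ℝ`. -/
theorem RR_iff (z : Zab) : RR z ↔ cj z = z := ⟨RR.real, RR_of_real⟩

end Pool.Agent.Helper60.ZEA
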