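import Pool.Agent.Helper60.ZEA.Sound

/-!
Completeness of the sentence.
-/

namespace Pool.Agent.Helper60.ZEA

open Pool.Agent.Helper63.ZabUnd Complex MvPolynomial

variable {ι : Type} [Fintype ι]

/-- Real elements which are small at all places but one. -/
theorem exists_alpha {ζ : Zab} (hζ : (ζ : ℂ) ∈ rootsU) {ε : ℝ} (hε : 0 < ε) :
    ∃ α : Zab, cj α = α ∧ α ≠ 0 ∧ ∀ Φ : Qab →+* ℂ, pl Φ ζ ≠ ζ →
      pl Φ ζ ≠ (starRingEnd ℂ) (ζ : ℂ) → ‖pl Φ α‖ < ε := by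
  have hT : (({(ζ : ℂ)} : Finset ℂ) : Set ℂ) ⊆ rootsU := by
    intro x hx
    rw [Finset.coe_singleton, Set.mem_singleton_iff] at hx
    exact hx ▸ hζ
  have hNF := numberField_adjoin _ hT
  obtain ⟨u, hu, hu0, hs⟩ := Pool.Agent.Helper88.ZL.small
    (K := KT {(ζ : ℂ)}) (algebraMap _ ℂ) (min ε 1) (lt_min hε one_pos)
  have huZ : (u : ℂ) ∈ Zab := ⟨KT_le hT u.2, hu.map ((algebraMap (KT {(ζ : ℂ)}) ℂ).toIntAlgHom)⟩
  have hζT : (ζ : ℂ) ∈ KT {(ζ : ℂ)} := IntermediateField.subset_adjoin _ _ (by simp)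
  obtain ⟨v, hv⟩ : ∃ v : Zab, (v : ℂ) = u := ⟨⟨u, huZ⟩, rfl⟩
  have hv0 : v ≠ 0 := by
    rintro rfl
    exact hu0 (Subtype.ext hv.symm)
  refine ⟨v * cj v, cj_mul_cj v, mul_ne_zero hv0 ?_, fun Φ h1 h2 => ?_⟩
  · intro h
    apply hv0
    rw [← cj_cj v, h, map_zero]
  · set φ : KT {(ζ : ℂ)} →+* ℂ :=
      Φ.comp (IntermediateField.inclusion (KT_le hT) : KT {(ζ : ℂ)} →+* Qab) with hφ
    have h3 : φ ≠ algebraMap _ ℂ := by
      intro h
      apply h1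
      exact congrArg (fun g : KT {(ζ : ℂ)} →+* ℂ => g ⟨ζ, hζT⟩) h
    have h4 : φ ≠ (starRingEnd ℂ).comp (algebraMap _ ℂ) := by
      intro h
      apply h2
      exact congrArg (fun g : KT {(ζ : ℂ)} →+* ℂ => g ⟨ζ, hζT⟩) h
    have h5 := hs φ h3 h4
    have h6 : pl Φ v = φ u := by
      show Φ (toQ v) = Φ _
      congr 1
      exact Subtype.ext hv
    rw [pl_mul_cj, Complex.norm_real, Real.norm_eq_abs, abs_of_nonneg (sq_nonneg _), h6]
    have h7 := lt_of_lt_of_le h5 (min_le_left _ _)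
    have h8 := lt_of_lt_of_le h5 (min_le_right _ _)
    nlinarith [norm_nonneg (φ u)]

theorem one_le {M : ℕ} (hM : 2 ≤ M) {m : ℤ} (hm0 : m ≠ 0) (hm : 2 * |m| ≤ M) {e x : ℂ}
    (he : e = Complex.exp (2 * Real.pi * Complex.I / M)) (hx : x * (e - 1) = e ^ m - 1) :
    1 ≤ ‖x‖ := by
  have hprim := Complex.isPrimitiveRoot_exp M (by omega)
  rw [← he] at hprim
  have he1 : e - 1 ≠ 0 := sub_ne_zero.2 (hprim.ne_one (by omega))
  have heU : e ∈ rootsU := ⟨M, by omega, hprim.pow_eq_one⟩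
  have he0 := rootsU_ne_zero heU
  by_cases h1 : m = 1
  · rw [h1, zpow_one] at hx
    have : x = 1 := mul_right_cancel₀ he1 (by rw [hx, one_mul])
    rw [this, norm_one]
  by_cases h2 : m = -1
  · rw [h2] at hx
    have : x = -e⁻¹ := mul_right_cancel₀ he1 (by
      rw [hx, zpow_neg, zpow_one]
      field_simp
      ring)
    rw [this, norm_neg, rootsU_norm (rootsU_inv heU)]
  have h3 := (Pool.Agent.Helper88.ZL.approx M hM m hm e x he hx).1
  have h4 : (2 : ℝ) ≤ |(m : ℝ)| := by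
    have : 2 ≤ |m| := by
      rcases abs_cases m with h | h <;> omega
    have h5 : ((2 : ℤ) : ℝ) ≤ ((|m| : ℤ) : ℝ) := by exact_mod_cast this
    rw [Int.cast_abs] at h5
    exact_mod_cast h5
  have h5 := Real.pi_lt_four
  by_contra hcon
  rw [not_le] at hcon
  nlinarith [norm_nonneg x, Real.pi_pos]

theorem re_cpl (Φ : Qab →+* ℂ) (f : Zab) : (pl (cpl Φ) f).re = (pl Φ f).re := by
  rw [pl_cpl, Complex.conj_re]

theorem neg_all {ζ f : Zab} (h1 : ∀ Φ, pl Φ ζ = (ζ : ℂ) → (pl Φ f).re < 0)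
    (h2 : ∀ Φ, pl Φ ζ ≠ (ζ : ℂ) → pl Φ ζ ≠ (starRingEnd ℂ) (ζ : ℂ) → (pl Φ f).re < 0)
    (Φ : Qab →+* ℂ) : (pl Φ f).re < 0 := by
  by_cases h3 : pl Φ ζ = (ζ : ℂ)
  · exact h1 Φ h3
  by_cases h4 : pl Φ ζ = (starRingEnd ℂ) (ζ : ℂ)
  · rw [← re_cpl]
    apply h1
    rw [pl_cpl, h4, Complex.conj_conj]
  · exact h2 Φ h3 h4

theorem complete {F : MvPolynomial (Option ι) ℤ} {CF d : ℕ} (hL : LipB F CF d) (C D : ℕ)
    {n : ℕ} {a : ι → ℤ} (ha : Fv F n a = 0) : Sn F C D n := by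
  obtain ⟨P, hP⟩ := anal_compl hL C D ha
  obtain ⟨p, hpP, hp⟩ := Nat.exists_infinite_primes (P + 3)
  obtain ⟨hM2, haM, hX⟩ := hP p (by omega)
  have hp0 : 0 < p := by omega
  have hprim := Complex.isPrimitiveRoot_exp p hp0.ne'
  obtain ⟨e, he⟩ : ∃ e, e = Complex.exp (2 * Real.pi * Complex.I / p) := ⟨_, rfl⟩
  rw [← he] at hprim
  have heU : e ∈ rootsU := ⟨p, hp0, hprim.pow_eq_one⟩
  obtain ⟨ζ, hζe⟩ : ∃ ζ : Zab, (ζ : ℂ) = e := ⟨⟨e, rootsU_mem_Zab heU⟩, rfl⟩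
  have hζU : (ζ : ℂ) ∈ rootsU := by rw [hζe]; exact heU
  have hζprim : IsPrimitiveRoot ζ p :=
    IsPrimitiveRoot.of_map_of_injective (f := Zab.subtype) (by
      show IsPrimitiveRoot (ζ : ℂ) p
      rw [hζe]
      exact hprim) Subtype.val_injective
  have hmul : ∀ θ : Zab, (θ : ℂ) ∈ rootsU → θ * cj θ = 1 := by
    intro θ hθ
    apply Subtype.ext
    show (θ : ℂ) * (starRingEnd ℂ) (θ : ℂ) = 1
    rw [rootsU_conj hθ, mul_inv_cancel₀ (rootsU_ne_zero hθ)]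
  have hζ1 : ζ ≠ 1 := hζprim.ne_one (by omega)
  have hζ1' : ζ - 1 ≠ 0 := sub_ne_zero.2 hζ1
  let u : Zabˣ := ⟨ζ, cj ζ, hmul ζ hζU, by rw [mul_comm, hmul ζ hζU]⟩
  have huv : (u : Zab) = ζ := rfl
  have hup : u ^ p = 1 := by
    apply Units.ext
    rw [Units.val_pow_eq_pow_val, huv, hζprim.pow_eq_one]
    rfl
  have hηU : ∀ i, (((u ^ (a i) : Zabˣ) : Zab) : ℂ) ∈ rootsU := by
    intro i
    refine ⟨p, hp0, ?_⟩
    have h1 : (u ^ (a i)) ^ p = 1 := by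
      rw [← zpow_natCast, ← zpow_mul, mul_comm, zpow_mul, zpow_natCast, hup, one_zpow]
    have h2 := congrArg (fun v : Zabˣ => ((v : Zab) : ℂ)) h1
    simpa using h2
  have hx : ∀ i, ∃ x : Zab, x * (ζ - 1) = ((u ^ (a i) : Zabˣ) : Zab) - 1 := by
    intro i
    obtain ⟨z, hz⟩ := zpow_expansion u (a i)
    refine ⟨z * (ζ - 1) + a i, ?_⟩
    rw [huv] at hz
    linear_combination -hz
  choose x hx using hx
  -- images of the powers
  have hpl : ∀ Φ : Qab →+* ℂ, pl Φ ζ = (ζ : ℂ) → ∀ i,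
      pl Φ (x i) * (e - 1) = e ^ (a i) - 1 := by
    intro Φ hΦ i
    have h1 := congrArg (pl Φ) (hx i)
    rw [map_mul, map_sub, map_sub, map_one, hΦ, hζe] at h1
    have h2 : pl Φ ((u ^ (a i) : Zabˣ) : Zab) = e ^ (a i) := by
      have h3 : Units.map (pl Φ : Zab →* ℂ) (u ^ (a i)) = (Units.map (pl Φ : Zab →* ℂ) u) ^ (a i) :=
        map_zpow _ _ _
      have h4 := congrArg (Units.val) h3
      rw [Units.val_zpow_eq_zpow_val] at h4
      have h5 : ((Units.map (pl Φ : Zab →* ℂ) u : ℂˣ) : ℂ) = e := by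
        show pl Φ ζ = e
        rw [hΦ, hζe]
      rw [h5] at h4
      exact h4
    rw [h2] at h1
    exact h1
  obtain ⟨h, hh⟩ : ∃ h, h = hval F C D n ζ (cj ζ) x (fun i => cj (x i)) := ⟨_, rfl⟩
  obtain ⟨B, hB⟩ := exists_bound h
  obtain ⟨α, hα, hα0, hαs⟩ := exists_alpha hζU (ε := 1 / (2 * (|B| + 1))) (by positivity)
  have hαs' : ∀ Φ : Qab →+* ℂ, pl Φ ζ ≠ ζ → pl Φ ζ ≠ (starRingEnd ℂ) (ζ : ℂ) →
      4 * (pl Φ α).re ^ 2 * (|B| + 1) < 1 := by
    intro Φ h1 h2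
    have h3 := hαs Φ h1 h2
    rw [pl_real Φ hα, Complex.norm_real, Real.norm_eq_abs] at h3
    rw [← sq_abs]
    set A := |(pl Φ α).re|
    have h4 : 0 ≤ A := abs_nonneg _
    have h5 : 1 ≤ |B| + 1 := by linarith [abs_nonneg B]
    rw [lt_div_iff₀ (by positivity)] at h3
    have h6 : (A * (2 * (|B| + 1))) ^ 2 < 1 := by
      have h7 : 0 ≤ A * (2 * (|B| + 1)) := by positivity
      nlinarith
    have h7 : 4 * A ^ 2 * (|B| + 1) ≤ (A * (2 * (|B| + 1))) ^ 2 := by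
      have : (A * (2 * (|B| + 1))) ^ 2 = 4 * A ^ 2 * (|B| + 1) * (|B| + 1) := by ring
      rw [this]
      have h8 : 0 ≤ 4 * A ^ 2 * (|B| + 1) := by positivity
      nlinarith
    linarith
  have cjα2 : cj (α ^ 2) = α ^ 2 := by rw [map_pow, hα]
  refine ⟨ζ, cj ζ, α, fun i => ((u ^ (a i) : Zabˣ) : Zab), fun i => cj ((u ^ (a i) : Zabˣ) : Zab),
    x, fun i => cj (x i), ⟨hζU, hmul ζ hζU, hζ1, hα, hα0, fun i => ⟨hηU i, hmul _ (hηU i), hx i, ?_⟩⟩,
    ?_, ?_⟩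
  · have := congrArg cj (hx i)
    rwa [map_mul, map_sub, map_sub, map_one] at this
  · have hf : cj (4 * α ^ 2 * hval F C D n ζ (cj ζ) x (fun i => cj (x i)) - 2 * α ^ 2 - 1) =
        4 * α ^ 2 * hval F C D n ζ (cj ζ) x (fun i => cj (x i)) - 2 * α ^ 2 - 1 := by
      rw [map_sub, map_sub, map_mul, map_mul, cj_hval, map_mul, cjα2, map_ofNat, map_ofNat,
        map_one]
    refine not_E hf (neg_all (ζ := ζ) (fun Φ hΦ => ?_) (fun Φ h1 h2 => ?_))
    · have h3 := hX e (fun i => pl Φ (x i)) he (hpl Φ hΦ)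
      rw [map_sub, map_sub, map_mul, pl_hval, map_mul, map_mul, map_ofNat, map_ofNat, map_one,
        map_pow, pl_real Φ hα, hΦ, hζe]
      set A := (pl Φ α).re
      have h5 : hR F C D n e (fun i => pl Φ (x i)) ≤ 1 / 2 := h3
      set G := hR F C D n e (fun i => pl Φ (x i))
      have h4 : (4 * (A : ℂ) ^ 2 * (G : ℂ) - 2 * (A : ℂ) ^ 2 - 1).re =
          4 * A ^ 2 * G - 2 * A ^ 2 - 1 := by
        rw [← Complex.ofReal_re (4 * A ^ 2 * G - 2 * A ^ 2 - 1)]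
        push_cast
        rfl
      rw [h4]
      nlinarith [sq_nonneg A]
    · have h3 := hαs' Φ h1 h2
      have h6 := hB Φ
      rw [hh] at h6
      rw [pl_hval] at h6
      rw [map_sub, map_sub, map_mul, pl_hval, map_mul, map_mul, map_ofNat, map_ofNat, map_one,
        map_pow, pl_real Φ hα]
      set A := (pl Φ α).re
      set G := hR F C D n (pl Φ ζ) (fun i => pl Φ (x i))
      have h4 : (4 * (A : ℂ) ^ 2 * (G : ℂ) - 2 * (A : ℂ) ^ 2 - 1).re =
          4 * A ^ 2 * G - 2 * A ^ 2 - 1 := by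
        rw [← Complex.ofReal_re (4 * A ^ 2 * G - 2 * A ^ 2 - 1)]
        push_cast
        rfl
      rw [h4]
      rw [Complex.norm_real, Real.norm_eq_abs] at h6
      have h7 : G ≤ |B| := (le_abs_self G).trans (h6.trans (le_abs_self B))
      nlinarith [sq_nonneg A]
  · intro θ θ' s s' hθ hθθ' hs hs' hs0
    have hθ' : θ' = cj θ := (conjZ_root hθ hθθ').symm
    have hcζ1 : cj ζ - 1 ≠ 0 := by
      intro h0
      apply hζ1
      have h3 : cj ζ = 1 := sub_eq_zero.1 h0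
      rw [← cj_cj ζ, h3, map_one]
    have hs'' : s' = cj s := by
      have := congrArg cj hs
      rw [map_mul, map_sub, map_sub, map_one, ← hθ', ← hs'] at this
      exact (mul_right_cancel₀ hcζ1 this).symm
    subst hs''
    have hf : cj (4 * α ^ 2 * (1 - s * cj s) - 1) = 4 * α ^ 2 * (1 - s * cj s) - 1 := by
      rw [map_sub, map_mul, map_sub, cj_mul_cj, map_mul, cjα2, map_ofNat, map_one]
    have hθp : θ ^ p = 1 := by
      obtain ⟨N, hN, hθN⟩ := hθ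
      have hθN' : θ ^ N = 1 := by
        apply Subtype.ext
        rw [Subring.coe_pow, hθN]
        rfl
      have hdvd : (ζ - 1) ∣ θ - 1 := ⟨s, by rw [← hs, mul_comm]⟩
      obtain ⟨k, hk⟩ := exists_pow_eq_one hp (by omega) hζprim (prime_not_isUnit hp) hN hθN' hdvd
      exact pow_prime_eq_one hp (by omega) hζprim (prime_not_isUnit hp) hdvd k hk
    have hNZ : NeZero p := ⟨hp0.ne'⟩
    obtain ⟨j, -, hj⟩ := hζprim.eq_pow_of_pow_eq_one hθp
    refine not_E hf (neg_all (ζ := ζ) (fun Φ hΦ => ?_) (fun Φ h1 h2 => ?_))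
    · obtain ⟨m, hm, hme⟩ := balanced hp0 hprim.pow_eq_one (j : ℤ)
      have h3 : pl Φ s * (e - 1) = e ^ m - 1 := by
        have h4 := congrArg (pl Φ) hs
        rw [map_mul, map_sub, map_sub, map_one, ← hj, map_pow, hΦ, hζe, ← zpow_natCast,
          hme] at h4
        exact h4
      have hm0 : m ≠ 0 := by
        rintro rfl
        rw [zpow_zero, sub_self] at h3
        have he1 : e - 1 ≠ 0 := sub_ne_zero.2 (hprim.ne_one (by omega))
        rcases mul_eq_zero.1 h3 with h4 | h4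
        · exact hs0 (pl_inj Φ (by rw [h4, map_zero]))
        · exact he1 h4
      have h4 := one_le hM2 hm0 hm he h3
      rw [map_sub, map_mul, map_sub, pl_mul_cj, map_mul, map_ofNat, map_one,
        map_pow, pl_real Φ hα]
      set A := (pl Φ α).re
      have h5 : 1 ≤ ‖pl Φ s‖ ^ 2 := by nlinarith
      set G := ‖pl Φ s‖ ^ 2
      have h6 : (4 * (A : ℂ) ^ 2 * (1 - (G : ℂ)) - 1).re = 4 * A ^ 2 * (1 - G) - 1 := by
        rw [← Complex.ofReal_re (4 * A ^ 2 * (1 - G) - 1)]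
        push_cast
        rfl
      rw [h6]
      nlinarith [sq_nonneg A]
    · have h3 := hαs' Φ h1 h2
      rw [map_sub, map_mul, map_sub, pl_mul_cj, map_mul, map_ofNat, map_one,
        map_pow, pl_real Φ hα]
      set A := (pl Φ α).re
      have h5 : 0 ≤ ‖pl Φ s‖ ^ 2 := sq_nonneg _
      set G := ‖pl Φ s‖ ^ 2
      have h6 : (4 * (A : ℂ) ^ 2 * (1 - (G : ℂ)) - 1).re = 4 * A ^ 2 * (1 - G) - 1 := by
        rw [← Complex.ofReal_re (4 * A ^ 2 * (1 - G) - 1)]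
        push_cast
        rfl
      rw [h6]
      nlinarith [sq_nonneg A, abs_nonneg B]

end Pool.Agent.Helper60.ZEA
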