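import Pool.Agent.Helper60.ZEA.ComplB

/-!
Diophantine predicates over `ℤ^ab`: closure properties.
-/

namespace Pool.Agent.Helper60.ZEA

open Pool.Agent.Helper63.ZabUnd Complex IntermediateField

/-- `2` is not a cube in `ℚ^ab`. -/
theorem cube_ne_two {r : ℂ} (hr : r ∈ Qab) : r ^ 3 ≠ 2 := by
  intro h
  -- a real cube root in `Qab`
  obtain ⟨ρ, hρ3, hρr, hρ⟩ : ∃ ρ : ℂ, ρ ^ 3 = 2 ∧ (starRingEnd ℂ) ρ = ρ ∧ ρ ∈ Qab := by
    obtain ⟨a, ha0, ha⟩ : ∃ a : ℝ, 0 ≤ a ∧ a ^ 3 = 2 :=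
      ⟨(2 : ℝ) ^ (1 / 3 : ℝ), by positivity, by
        rw [← Real.rpow_natCast, ← Real.rpow_mul (by norm_num)]
        norm_num⟩
    have ha' : (a : ℂ) ^ 3 = 2 := by
      rw [← Complex.ofReal_pow, ha]
      simp
    refine ⟨a, ha', Complex.conj_ofReal a, ?_⟩
    have ha0' : (a : ℂ) ≠ 0 := by
      intro h0
      rw [h0] at ha'
      norm_num at ha'
    have hr0 : r ≠ 0 := by
      intro h0
      rw [h0] at h
      norm_num at h
    have h1 : (a / r : ℂ) ∈ rootsU := ⟨3, by norm_num, by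
      rw [div_pow, ha', h, div_self two_ne_zero]⟩
    have h2 : (a : ℂ) = a / r * r := by field_simp
    rw [h2]
    exact mul_mem (IntermediateField.subset_adjoin _ _ h1) hr
  obtain ⟨T, hT, hx⟩ := exists_finset hρ
  have hNF := numberField_adjoin T hT
  set K := adjoin ℚ (T : Set ℂ) with hK
  have hemb : ∀ φ : K →+* ℂ, φ ⟨ρ, hx⟩ = ρ := by
    intro φ
    obtain ⟨h1, h2⟩ := conj_comm hT φ hx
    have h3 : φ ⟨ρ, hx⟩ ^ 3 = 2 := by
      rw [← map_pow]
      have : (⟨ρ, hx⟩ : K) ^ 3 = 2 := by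
        apply Subtype.ext
        have h2' : ((2 : K) : ℂ) = 2 := map_ofNat (algebraMap K ℂ) 2
        rw [h2']
        simpa using hρ3
      rw [this, map_ofNat]
    have h4 : (starRingEnd ℂ) (φ ⟨ρ, hx⟩) = φ ⟨ρ, hx⟩ := by
      rw [← h2]
      congr 1
      exact Subtype.ext hρr
    obtain ⟨b, hb⟩ := Complex.conj_eq_iff_real.1 h4
    obtain ⟨a, ha⟩ := Complex.conj_eq_iff_real.1 hρr
    rw [hb] at h3 ⊢
    rw [ha] at hρ3 ⊢
    have h5 : b ^ 3 = a ^ 3 := by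
      have : ((b ^ 3 : ℝ) : ℂ) = ((a ^ 3 : ℝ) : ℂ) := by
        push_cast
        rw [h3, hρ3]
      exact_mod_cast this
    have h6 : b = a := (Odd.strictMono_pow (by decide : Odd 3)).injective h5
    rw [h6]
  have htr := trace_eq_sum_embeddings (K := ℚ) (L := K) ℂ (x := (⟨ρ, hx⟩ : K))
  have h1 : ∀ σ : K →ₐ[ℚ] ℂ, σ ⟨ρ, hx⟩ = ρ := fun σ => hemb (σ : K →+* ℂ)
  rw [Finset.sum_congr rfl (fun σ _ => h1 σ), Finset.sum_const, Finset.card_univ,
    AlgHom.card ℚ K ℂ, nsmul_eq_mul] at htr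
  have hd : 0 < Module.finrank ℚ K := Module.finrank_pos
  obtain ⟨a, ha⟩ := Complex.conj_eq_iff_real.1 hρr
  have h2 : a = (((Algebra.trace ℚ K ⟨ρ, hx⟩) / (Module.finrank ℚ K : ℚ) : ℚ) : ℝ) := by
    have h3 : ((Module.finrank ℚ K : ℕ) : ℂ) ≠ 0 := Nat.cast_ne_zero.2 hd.ne'
    have h4 : (a : ℂ) = ((((Algebra.trace ℚ K ⟨ρ, hx⟩) / (Module.finrank ℚ K : ℚ) : ℚ) : ℝ) : ℂ) := by
      push_cast
      rw [eq_div_iff h3, mul_comm, ← ha, ← htr]
      simp
    exact_mod_cast h4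
  have h5 : a ^ 3 = ((2 : ℤ) : ℝ) := by
    rw [ha] at hρ3
    have : ((a ^ 3 : ℝ) : ℂ) = ((2 : ℝ) : ℂ) := by
      push_cast
      rw [hρ3]
    push_cast
    exact_mod_cast this
  have h6 : Irrational a := by
    refine irrational_nrt_of_notint_nrt 3 2 h5 ?_ (by norm_num)
    rintro ⟨y, hy⟩
    rw [hy] at h5
    have h7 : y ^ 3 = 2 := by exact_mod_cast h5
    rcases le_or_gt y 1 with h8 | h8
    · nlinarith [sq_nonneg y, sq_nonneg (y + 1)]
    · have : 2 ≤ y := h8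
      nlinarith [sq_nonneg y, sq_nonneg (y + 1)]
  exact h6 ⟨_, h2.symm⟩

theorem cube_form {x y : Zab} (h : x ^ 3 - 2 * y ^ 3 = 0) : x = 0 ∧ y = 0 := by
  have h2' : ((2 : Zab) : ℂ) = 2 := map_ofNat Zab.subtype 2
  have h' : (x : ℂ) ^ 3 = 2 * (y : ℂ) ^ 3 := by
    have h3 : x ^ 3 = 2 * y ^ 3 := by linear_combination h
    have := congrArg Subtype.val h3
    rw [Subring.coe_mul, h2', Subring.coe_pow, Subring.coe_pow] at this
    exact this
  have hy : y = 0 := by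
    by_contra hy
    have hy' : (y : ℂ) ≠ 0 := fun h0 => hy (Subtype.ext h0)
    refine cube_ne_two (div_mem x.2.1 y.2.1) ?_
    rw [div_pow, h']
    field_simp
  refine ⟨?_, hy⟩
  rw [hy] at h
  have : x ^ 3 = 0 := by linear_combination h
  exact pow_eq_zero_iff (by norm_num) |>.1 this

theorem ne_zero_iff (x : Zab) : x ≠ 0 ↔ ∃ s t t' : Zab, x * s - (2 * t - 1) * (3 * t' - 1) = 0 := by
  constructor
  · intro hx
    obtain ⟨E, hE, s, hs⟩ := exists_dvd_int hx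
    obtain ⟨a, m, hm, hEm⟩ := Nat.exists_eq_two_pow_mul_odd (Int.natAbs_ne_zero.2 hE)
    have hE' : ∃ ε : ℤ, ε * E = 2 ^ a * m := by
      refine ⟨E.sign, ?_⟩
      rw [Int.sign_mul_self_eq_natAbs, hEm]
      push_cast
      ring
    obtain ⟨ε, hε⟩ := hE'
    obtain ⟨k, hk⟩ := hm
    -- `2 ^ (2 b + 1) + 1` is divisible by `3`
    have h3 : ∀ b : ℕ, ∃ c : ℤ, (2 : ℤ) ^ (2 * b + 1) = 3 * c - 1 := by
      intro b
      induction b with
      | zero => exact ⟨1, by norm_num⟩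
      | succ b ih =>
        obtain ⟨c, hc⟩ := ih
        refine ⟨4 * c - 1, ?_⟩
        have : (2 : ℤ) ^ (2 * (b + 1) + 1) = 4 * 2 ^ (2 * b + 1) := by ring
        rw [this, hc]
        ring
    obtain ⟨b, j, hj⟩ : ∃ b j : ℕ, a + j = 2 * b + 1 := by
      rcases Nat.even_or_odd' a with ⟨c, hc | hc⟩
      · exact ⟨c, 1, by omega⟩
      · exact ⟨c, 0, by omega⟩
    obtain ⟨c, hc⟩ := h3 b
    refine ⟨s * ε * 2 ^ j, k + 1, c, ?_⟩
    have h4 : ((ε * E * 2 ^ j : ℤ) : Zab) = (((2 * (k + 1) - 1) * (3 * c - 1) : ℤ) : Zab) := by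
      congr 1
      rw [hε, ← hc, ← hj, hk]
      push_cast
      ring
    push_cast at h4
    rw [hs] at h4
    linear_combination h4
  · rintro ⟨s, t, t', h⟩ rfl
    rw [zero_mul, zero_sub, neg_eq_zero] at h
    rcases mul_eq_zero.1 h with h1 | h1
    · refine prime_not_isUnit Nat.prime_two (IsUnit.of_mul_eq_one t ?_)
      push_cast
      linear_combination h1
    · refine prime_not_isUnit Nat.prime_three (IsUnit.of_mul_eq_one t' ?_)
      push_cast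
      linear_combination h1

end Pool.Agent.Helper60.ZEA
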