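import Pool.Agent.Helper60.ZEA.Dio

/-!
The calculus of Diophantine predicates over `ℤ^ab`.
-/

namespace Pool.Agent.Helper60.ZEA

open Pool.Agent.Helper63.ZabUnd MvPolynomial

/-- `f` is given by a polynomial with integer coefficients. -/
def PF {α : Type} (f : (α → Zab) → Zab) : Prop := ∃ p : MvPolynomial α ℤ, ∀ v, f v = aeval v p

/-- `P` is Diophantine over `ℤ^ab`. -/
def Dio {α : Type} (P : (α → Zab) → Prop) : Prop :=
  ∃ (β : Type) (_ : Finite β) (p : MvPolynomial (α ⊕ β) ℤ),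
    ∀ v, P v ↔ ∃ w : β → Zab, aeval (Sum.elim v w) p = 0

variable {α β γ : Type}

namespace PF

theorem var (a : α) : PF (fun v : α → Zab => v a) := ⟨X a, fun v => by rw [aeval_X]⟩

theorem int (m : ℤ) : PF (fun _ : α → Zab => (m : Zab)) := ⟨C m, fun v => by
  rw [aeval_C]
  exact (eq_intCast (algebraMap ℤ Zab) m).symm⟩

theorem zero : PF (fun _ : α → Zab => (0 : Zab)) := ⟨0, fun v => by rw [map_zero]⟩

theorem one : PF (fun _ : α → Zab => (1 : Zab)) := ⟨1, fun v => by rw [map_one]⟩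

theorem ofNat (n : ℕ) [n.AtLeastTwo] : PF (fun _ : α → Zab => (OfNat.ofNat n : Zab)) :=
  ⟨OfNat.ofNat n, fun v => by rw [map_ofNat]⟩

theorem add {f g : (α → Zab) → Zab} (hf : PF f) (hg : PF g) : PF (fun v => f v + g v) := by
  obtain ⟨p, hp⟩ := hf
  obtain ⟨q, hq⟩ := hg
  exact ⟨p + q, fun v => by beta_reduce; rw [map_add, hp, hq]⟩

theorem mul {f g : (α → Zab) → Zab} (hf : PF f) (hg : PF g) : PF (fun v => f v * g v) := by
  obtain ⟨p, hp⟩ := hf
  obtain ⟨q, hq⟩ := hg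
  exact ⟨p * q, fun v => by beta_reduce; rw [map_mul, hp, hq]⟩

theorem sub {f g : (α → Zab) → Zab} (hf : PF f) (hg : PF g) : PF (fun v => f v - g v) := by
  obtain ⟨p, hp⟩ := hf
  obtain ⟨q, hq⟩ := hg
  exact ⟨p - q, fun v => by beta_reduce; rw [map_sub, hp, hq]⟩

theorem pow {f : (α → Zab) → Zab} (hf : PF f) (n : ℕ) : PF (fun v => f v ^ n) := by
  obtain ⟨p, hp⟩ := hf
  exact ⟨p ^ n, fun v => by beta_reduce; rw [map_pow, hp]⟩

theorem sum {ι : Type*} (s : Finset ι) {f : ι → (α → Zab) → Zab} (hf : ∀ i, PF (f i)) :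
    PF (fun v => ∑ i ∈ s, f i v) := by
  choose p hp using hf
  exact ⟨∑ i ∈ s, p i, fun v => by
    rw [map_sum]
    exact Finset.sum_congr rfl fun i _ => hp i v⟩

theorem subst {f : (γ → Zab) → Zab} (hf : PF f) {g : γ → (α → Zab) → Zab}
    (hg : ∀ c, PF (g c)) : PF (fun v => f (fun c => g c v)) := by
  obtain ⟨p, hp⟩ := hf
  choose q hq using hg
  refine ⟨bind₁ q p, fun v => ?_⟩
  beta_reduce
  rw [hp, aeval_bind₁]
  have : (fun c => g c v) = fun c => aeval v (q c) := funext fun c => hq c v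
  rw [this]

end PF

namespace Dio

theorem congr {P Q : (α → Zab) → Prop} (hP : Dio P) (h : ∀ v, P v ↔ Q v) : Dio Q := by
  obtain ⟨β, hβ, p, hp⟩ := hP
  exact ⟨β, hβ, p, fun v => (h v).symm.trans (hp v)⟩

theorem eq {f g : (α → Zab) → Zab} (hf : PF f) (hg : PF g) : Dio (fun v => f v = g v) := by
  obtain ⟨p, hp⟩ := hf.sub hg
  refine ⟨Empty, inferInstance, rename Sum.inl p, fun v => ?_⟩
  have h : ∀ w : Empty → Zab, aeval (Sum.elim v w) (rename Sum.inl p) = f v - g v := by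
    intro w
    rw [aeval_rename, Sum.elim_comp_inl]
    exact (hp v).symm
  constructor
  · intro h1
    exact ⟨Empty.elim, by rw [h, h1, sub_self]⟩
  · rintro ⟨w, hw⟩
    rw [h] at hw
    exact sub_eq_zero.1 hw

theorem exs [Finite β] {P : (α ⊕ β → Zab) → Prop} (hP : Dio P) :
    Dio (fun v : α → Zab => ∃ w : β → Zab, P (Sum.elim v w)) := by
  obtain ⟨γ, hγ, p, hp⟩ := hP
  refine ⟨β ⊕ γ, inferInstance, rename (Equiv.sumAssoc α β γ) p, fun v => ?_⟩
  have h : ∀ (w : β → Zab) (u : γ → Zab),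
      aeval (Sum.elim v (Sum.elim w u)) (rename (Equiv.sumAssoc α β γ) p) =
        aeval (Sum.elim (Sum.elim v w) u) p := by
    intro w u
    rw [aeval_rename]
    congr 1
    refine congrArg aeval ?_
    funext x
    rcases x with (x | x) | x <;> rfl
  constructor
  · rintro ⟨w, hw⟩
    obtain ⟨u, hu⟩ := (hp _).1 hw
    exact ⟨Sum.elim w u, by rw [h, hu]⟩
  · rintro ⟨x, hx⟩
    refine ⟨fun b => x (Sum.inl b), (hp _).2 ⟨fun c => x (Sum.inr c), ?_⟩⟩
    rw [← h, ← hx]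
    congr 1
    refine congrArg aeval ?_
    congr 1
    funext y
    rcases y with y | y <;> rfl

theorem ex {P : (α → Zab) → Zab → Prop}
    (hP : Dio (fun u : α ⊕ Unit → Zab => P (fun a => u (Sum.inl a)) (u (Sum.inr ())))) :
    Dio (fun v : α → Zab => ∃ x : Zab, P v x) :=
  hP.exs.congr fun _ => ⟨fun ⟨w, hw⟩ => ⟨w (), hw⟩, fun ⟨x, hx⟩ => ⟨fun _ => x, hx⟩⟩

theorem and {P Q : (α → Zab) → Prop} (hP : Dio P) (hQ : Dio Q) : Dio (fun v => P v ∧ Q v) := by
  obtain ⟨β, hβ, p, hp⟩ := hP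
  obtain ⟨γ, hγ, q, hq⟩ := hQ
  refine ⟨β ⊕ γ, inferInstance, (rename (Sum.map id Sum.inl) p) ^ 3 -
    C 2 * (rename (Sum.map id Sum.inr) q) ^ 3, fun v => ?_⟩
  have h : ∀ (w : β ⊕ γ → Zab),
      aeval (Sum.elim v w) ((rename (Sum.map id Sum.inl) p) ^ 3 -
        C 2 * (rename (Sum.map id Sum.inr) q) ^ 3) =
      (aeval (Sum.elim v (fun b => w (Sum.inl b))) p) ^ 3 -
        2 * (aeval (Sum.elim v (fun c => w (Sum.inr c))) q) ^ 3 := by
    intro w
    rw [map_sub, map_pow, map_mul, map_pow, aeval_rename, aeval_rename, aeval_C]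
    have e1 : (Sum.elim v w) ∘ (Sum.map id Sum.inl) = Sum.elim v (fun b => w (Sum.inl b)) := by
      funext x
      rcases x with x | x <;> rfl
    have e2 : (Sum.elim v w) ∘ (Sum.map id Sum.inr) = Sum.elim v (fun c => w (Sum.inr c)) := by
      funext x
      rcases x with x | x <;> rfl
    rw [e1, e2]
    congr 2
  constructor
  · rintro ⟨h1, h2⟩
    obtain ⟨w, hw⟩ := (hp _).1 h1
    obtain ⟨u, hu⟩ := (hq _).1 h2
    refine ⟨Sum.elim w u, ?_⟩
    rw [h]
    have e1 : (fun b => (Sum.elim w u) (Sum.inl b)) = w := rfl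
    have e2 : (fun b => (Sum.elim w u) (Sum.inr b)) = u := rfl
    rw [e1, e2, hw, hu]
    ring
  · rintro ⟨w, hw⟩
    rw [h] at hw
    obtain ⟨h1, h2⟩ := cube_form hw
    exact ⟨(hp _).2 ⟨_, h1⟩, (hq _).2 ⟨_, h2⟩⟩

theorem ne {f g : (α → Zab) → Zab} (hf : PF f) (hg : PF g) : Dio (fun v => f v ≠ g v) := by
  have h1 : ∀ v, f v ≠ g v ↔ ∃ w : Fin 3 → Zab,
      (f v - g v) * w 0 - (2 * w 1 - 1) * (3 * w 2 - 1) = 0 := by
    intro v
    rw [← sub_ne_zero, ne_zero_iff]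
    constructor
    · rintro ⟨s, t, t', h⟩
      exact ⟨![s, t, t'], h⟩
    · rintro ⟨w, hw⟩
      exact ⟨w 0, w 1, w 2, hw⟩
  refine Dio.congr (Dio.exs (β := Fin 3) (P := fun u =>
    (f (fun a => u (Sum.inl a)) - g (fun a => u (Sum.inl a))) * u (Sum.inr 0) -
      (2 * u (Sum.inr 1) - 1) * (3 * u (Sum.inr 2) - 1) = 0) ?_) (fun v => (h1 v).symm)
  refine Dio.eq ?_ PF.zero
  refine ((((hf.subst fun a => PF.var _).sub (hg.subst fun a => PF.var _)).mul (PF.var _)).sub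
    ((((PF.ofNat 2).mul (PF.var _)).sub PF.one).mul (((PF.ofNat 3).mul (PF.var _)).sub PF.one)))

theorem subst {P : (γ → Zab) → Prop} (hP : Dio P) {g : γ → (α → Zab) → Zab}
    (hg : ∀ c, PF (g c)) : Dio (fun v => P (fun c => g c v)) := by
  obtain ⟨β, hβ, p, hp⟩ := hP
  choose q hq using hg
  refine ⟨β, hβ, bind₁ (Sum.elim (fun c => rename Sum.inl (q c)) (fun b => X (Sum.inr b))) p,
    fun v => ?_⟩
  beta_reduce
  rw [hp]
  refine exists_congr fun w => ?_
  rw [aeval_bind₁]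
  have : (fun i => aeval (Sum.elim v w)
      ((Sum.elim (fun c => rename Sum.inl (q c)) (fun b => X (Sum.inr b)) :
        γ ⊕ β → MvPolynomial (α ⊕ β) ℤ) i)) = Sum.elim (fun c => g c v) w := by
    funext i
    rcases i with i | i
    · rw [Sum.elim_inl, Sum.elim_inl, aeval_rename, Sum.elim_comp_inl, hq]
    · rw [Sum.elim_inr, Sum.elim_inr, aeval_X, Sum.elim_inr]
  rw [this]

/-- Diophantine predicates of one variable. -/
theorem app {P : Zab → Prop} (hP : Dio (fun v : Unit → Zab => P (v ()))) {f : (α → Zab) → Zab}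
    (hf : PF f) : Dio (fun v => P (f v)) :=
  hP.subst (g := fun _ => f) fun _ => hf

theorem forall_fin {n : ℕ} {P : Fin n → (α → Zab) → Prop} (h : ∀ i, Dio (P i)) :
    Dio (fun v => ∀ i, P i v) := by
  induction n with
  | zero => exact (Dio.eq PF.zero PF.zero).congr fun v => ⟨fun _ i => i.elim0, fun _ => rfl⟩
  | succ n ih =>
    refine ((h 0).and (ih (P := fun i => P i.succ) fun i => h i.succ)).congr fun v => ?_
    exact ⟨fun h => Fin.cases h.1 h.2, fun h => ⟨h 0, fun i => h i.succ⟩⟩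

/-- The definition with variables indexed by `Fin k`. -/
theorem exists_fin {P : (α → Zab) → Prop} (hP : Dio P) :
    ∃ (k : ℕ) (p : MvPolynomial (α ⊕ Fin k) ℤ),
      ∀ v, P v ↔ ∃ w : Fin k → Zab, aeval (Sum.elim v w) p = 0 := by
  obtain ⟨β, hβ, p, hp⟩ := hP
  obtain ⟨k, ⟨e⟩⟩ := Finite.exists_equiv_fin β
  refine ⟨k, rename (Sum.map id e) p, fun v => ?_⟩
  rw [hp]
  have h : ∀ w : Fin k → Zab, aeval (Sum.elim v w) (rename (Sum.map id e) p) =
      aeval (Sum.elim v (w ∘ e)) p := by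
    intro w
    rw [aeval_rename]
    congr 1
    refine congrArg aeval ?_
    funext x
    rcases x with x | x <;> rfl
  constructor
  · rintro ⟨w, hw⟩
    refine ⟨w ∘ e.symm, ?_⟩
    rw [h]
    have : (w ∘ e.symm) ∘ e = w := by
      funext b
      simp
    rw [this, hw]
  · rintro ⟨w, hw⟩
    exact ⟨w ∘ e, by rw [← h, hw]⟩

theorem mu {f : (α → Zab) → Zab} (hf : PF f) : Dio (fun v => ((f v : Zab) : ℂ) ∈ rootsU) := by
  simp only [mem_rootsU_iff]
  refine Dio.ex (Dio.ex (Dio.ex ?_))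
  have hf' := hf.subst (α := ((α ⊕ Unit) ⊕ Unit) ⊕ Unit)
    (g := fun a u => u (Sum.inl (Sum.inl (Sum.inl a)))) (fun a => PF.var _)
  have hβ : PF (fun u : ((α ⊕ Unit) ⊕ Unit) ⊕ Unit → Zab => u (Sum.inl (Sum.inl (Sum.inr ())))) :=
    PF.var _
  refine (Dio.ne hβ PF.zero).and (Dio.and ?_ (Dio.and ?_ ?_))
  · exact Dio.eq ((PF.one.sub (hβ.pow 4)).mul (PF.var _)) PF.one
  · exact Dio.ne (hf'.mul hβ) PF.zero
  · exact Dio.eq ((PF.one.sub ((hf'.mul hβ).pow 4)).mul (PF.var _)) PF.one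

end Dio

end Pool.Agent.Helper60.ZEA
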