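import Pool.Agent.Helper60.ZEA.DioB

/-!
`ℤ^ab ∩ ℝ` and the graph of complex conjugation are Diophantine over `ℤ^ab`.
-/

namespace Pool.Agent.Helper60.ZEA

open Pool.Agent.Helper63.ZabUnd MvPolynomial

variable {α : Type}

theorem dio_R1 {f : (α → Zab) → Zab} (hf : PF f) : Dio (fun v => R1 (f v)) := by
  refine Dio.app (P := R1) ?_ hf
  have h : Dio (fun x : Unit ⊕ Fin 7 → Zab =>
      x (Sum.inr 0) * x (Sum.inr 1) = 1 ∧ x (Sum.inr 2) * x (Sum.inr 3) = 1 ∧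
      x (Sum.inr 0) - 1 = 3 * x (Sum.inr 4) ∧
      x (Sum.inr 2) - 1 = 6 * x (Sum.inl ()) * x (Sum.inr 5) ∧ x (Sum.inr 2) ≠ 1 ∧
      x (Sum.inr 0) - 1 - x (Sum.inl ()) * (x (Sum.inr 2) - 1) =
        x (Sum.inr 6) * (x (Sum.inr 2) - 1) ^ 2) := by
    have V := fun a : Unit ⊕ Fin 7 => PF.var a
    refine (Dio.eq ((V _).mul (V _)) PF.one).and <| (Dio.eq ((V _).mul (V _)) PF.one).and <|
      (Dio.eq ((V _).sub PF.one) ((PF.ofNat 3).mul (V _))).and <|
      (Dio.eq ((V _).sub PF.one) (((PF.ofNat 6).mul (V _)).mul (V _))).and <|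
      (Dio.ne (V _) PF.one).and <|
      (Dio.eq (((V _).sub PF.one).sub ((V _).mul ((V _).sub PF.one)))
        ((V _).mul (((V _).sub PF.one).pow 2)))
  refine h.exs.congr fun v => ?_
  constructor
  · rintro ⟨w, hw⟩
    exact ⟨w 0, w 1, w 2, w 3, w 4, w 5, w 6, hw⟩
  · rintro ⟨u, u', v0, v', s, t, q, h⟩
    exact ⟨![u, u', v0, v', s, t, q], h⟩

theorem dio_Rk {f : (α → Zab) → Zab} (hf : PF f) : Dio (fun v => Rk (f v)) := by
  refine Dio.app (P := Rk) ?_ hf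
  have h : Dio (fun x : Unit ⊕ Fin 2 → Zab =>
      R1 (x (Sum.inr 0)) ∧ R1 (x (Sum.inr 1)) ∧ x (Sum.inl ()) = x (Sum.inr 0) - x (Sum.inr 1)) :=
    (dio_R1 (PF.var _)).and <| (dio_R1 (PF.var _)).and <|
      Dio.eq (PF.var _) ((PF.var _).sub (PF.var _))
  refine h.exs.congr fun v => ?_
  constructor
  · rintro ⟨w, hw⟩
    exact ⟨w 0, w 1, hw⟩
  · rintro ⟨x, y, h⟩
    exact ⟨![x, y], h⟩

theorem dio_RR {f : (α → Zab) → Zab} (hf : PF f) : Dio (fun v => RR (f v)) := by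
  refine Dio.app (P := RR) ?_ hf
  have h : Dio (fun x : Unit ⊕ Fin 8 → Zab =>
      ((x (Sum.inr 0) : Zab) : ℂ) ∈ rootsU ∧ x (Sum.inr 0) * x (Sum.inr 1) = 1 ∧
      Rk (x (Sum.inr 2)) ∧ Rk (x (Sum.inr 3)) ∧ Rk (x (Sum.inr 4)) ∧ Rk (x (Sum.inr 5)) ∧
      x (Sum.inr 2) ≠ 0 ∧
      6 * x (Sum.inr 2) * (x (Sum.inl ()) + x (Sum.inr 3) * (x (Sum.inr 0) + x (Sum.inr 1))) -
        x (Sum.inr 5) = 6 * (x (Sum.inr 4) - (x (Sum.inr 0) + x (Sum.inr 1))) * x (Sum.inr 6) ∧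
      x (Sum.inr 4) - (x (Sum.inr 0) + x (Sum.inr 1)) =
        (6 * x (Sum.inr 2) * (x (Sum.inl ()) + x (Sum.inr 3) *
          (x (Sum.inr 0) + x (Sum.inr 1))) - 1) * x (Sum.inr 7)) := by
    have V := fun a : Unit ⊕ Fin 8 => PF.var a
    refine (Dio.mu (V _)).and <| (Dio.eq ((V _).mul (V _)) PF.one).and <|
      (dio_Rk (V _)).and <| (dio_Rk (V _)).and <| (dio_Rk (V _)).and <| (dio_Rk (V _)).and <|
      (Dio.ne (V _) PF.zero).and <| Dio.and ?_ ?_
    · exact Dio.eq ((((PF.ofNat 6).mul (V _)).mul ((V _).add ((V _).mul ((V _).add (V _))))).sub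
        (V _)) (((PF.ofNat 6).mul ((V _).sub ((V _).add (V _)))).mul (V _))
    · exact Dio.eq ((V _).sub ((V _).add (V _)))
        (((((PF.ofNat 6).mul (V _)).mul ((V _).add ((V _).mul ((V _).add (V _))))).sub
          PF.one).mul (V _))
  refine h.exs.congr fun v => ?_
  constructor
  · rintro ⟨w, hw⟩
    exact ⟨w 0, w 1, w 2, w 3, w 4, w 5, w 6, w 7, hw⟩
  · rintro ⟨ζ, ζ', N, j, B, r, a, b, h⟩
    exact ⟨![ζ, ζ', N, j, B, r, a, b], h⟩

/-- Being real is Diophantine. -/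
theorem dio_real {f : (α → Zab) → Zab} (hf : PF f) : Dio (fun v => cj (f v) = f v) :=
  (dio_RR hf).congr fun v => RR_iff (f v)

theorem cj_iff (x y : Zab) : cj x = y ↔
    cj (x + y) = x + y ∧ ∃ i : Zab, i ^ 2 + 1 = 0 ∧ cj (i * (x - y)) = i * (x - y) := by
  have hi : ∀ i : Zab, i ^ 2 + 1 = 0 → cj i = -i := by
    intro i hi
    have h1 : ((i : Zab) : ℂ) ^ 2 = -1 := by
      have h2 : i ^ 2 = -1 := by linear_combination hi
      have := congrArg Subtype.val h2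
      simpa using this
    have h3 : (i : ℂ) = Complex.I ∨ (i : ℂ) = -Complex.I := by
      apply sq_eq_sq_iff_eq_or_eq_neg.1
      rw [h1, Complex.I_sq]
    apply Subtype.ext
    rw [coe_cj]
    rcases h3 with h3 | h3
    · show (starRingEnd ℂ) (i : ℂ) = -(i : ℂ)
      rw [h3, Complex.conj_I]
    · show (starRingEnd ℂ) (i : ℂ) = -(i : ℂ)
      rw [h3, map_neg, Complex.conj_I]
  have hi0 : ∀ i : Zab, i ^ 2 + 1 = 0 → i ≠ 0 := by
    rintro i hi rfl
    simp at hi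
  constructor
  · rintro rfl
    refine ⟨by rw [map_add, cj_cj, add_comm], ⟨Complex.I, I_mem⟩, ?_, ?_⟩
    · apply Subtype.ext
      simp
    · have h := hi ⟨Complex.I, I_mem⟩ (by apply Subtype.ext; simp)
      rw [map_mul, map_sub, cj_cj, h]
      ring
  · rintro ⟨h1, i, h2, h3⟩
    rw [map_add] at h1
    rw [map_mul, map_sub, hi i h2] at h3
    have h4 : i * (-(cj x - cj y) - (x - y)) = 0 := by linear_combination h3
    have h5 := (mul_eq_zero.1 h4).resolve_left (hi0 i h2)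
    have h6 : 2 * (cj x - y) = 0 := by linear_combination h1 - h5
    rcases mul_eq_zero.1 h6 with h7 | h7
    · exact absurd h7 (by norm_num)
    · exact sub_eq_zero.1 h7

/-- The graph of complex conjugation is Diophantine. -/
theorem dio_cj {f g : (α → Zab) → Zab} (hf : PF f) (hg : PF g) :
    Dio (fun v => cj (f v) = g v) := by
  refine Dio.congr (P := fun v => cj (f v + g v) = f v + g v ∧ ∃ i : Zab, i ^ 2 + 1 = 0 ∧
    cj (i * (f v - g v)) = i * (f v - g v)) ?_ (fun v => (cj_iff _ _).symm)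
  refine (dio_real (hf.add hg)).and (Dio.ex ?_)
  have hf' := hf.subst (α := α ⊕ Unit) (g := fun a u => u (Sum.inl a)) (fun a => PF.var _)
  have hg' := hg.subst (α := α ⊕ Unit) (g := fun a u => u (Sum.inl a)) (fun a => PF.var _)
  exact (Dio.eq (((PF.var _).pow 2).add PF.one) PF.zero).and
    (dio_real ((PF.var _).mul (hf'.sub hg')))

end Pool.Agent.Helper60.ZEA
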