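import Pool.Agent.Helper60.ZEA.DioR

/-!
The certificate that a real element of `ℤ^ab` has a positive conjugate: soundness.
-/

namespace Pool.Agent.Helper60.ZEA

open Pool.Agent.Helper63.ZabUnd Complex IntermediateField

/-- The field generated over `ℚ` by the set `T` of roots of unity. -/
noncomputable abbrev KT (T : Finset ℂ) : IntermediateField ℚ ℂ := adjoin ℚ (T : Set ℂ)

/-- The Pell equation for `f` has a nontrivial real solution. -/
def E (f : Zab) : Prop := ∃ a b c : Zab, cj a = a ∧ cj b = b ∧ a ^ 2 - f * b ^ 2 = 1 ∧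
  a - 1 = 3 * c ∧ b ≠ 0

theorem KT_mono {T T' : Finset ℂ} (h : T ⊆ T') : KT T ≤ KT T' :=
  IntermediateField.adjoin.mono ℚ _ _ (by exact_mod_cast h)

theorem exists_common_extend (T : Finset ℂ) (hT : (T : Set ℂ) ⊆ rootsU) (s : Finset ℂ)
    (hs : ∀ x ∈ s, x ∈ Qab) :
    ∃ T' : Finset ℂ, T ⊆ T' ∧ (T' : Set ℂ) ⊆ rootsU ∧ ∀ x ∈ s, x ∈ KT T' := by
  classical
  obtain ⟨T1, hT1, h1⟩ := exists_common s hs
  refine ⟨T ∪ T1, Finset.subset_union_left, ?_, fun x hx =>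
    KT_mono Finset.subset_union_right (h1 x hx)⟩
  rw [Finset.coe_union]
  exact Set.union_subset hT hT1

/-- Embeddings of a field generated by roots of unity take real elements to real numbers. -/
theorem emb_real {T : Finset ℂ} (hT : (T : Set ℂ) ⊆ rootsU) (φ : KT T →+* ℂ) {x : Zab}
    (hx : (x : ℂ) ∈ KT T) (h : cj x = x) : φ ⟨x, hx⟩ = ((φ ⟨x, hx⟩).re : ℂ) := by
  obtain ⟨h1, h2⟩ := conj_comm hT φ hx
  have h3 : (⟨(starRingEnd ℂ) (x : ℂ), h1⟩ : KT T) = ⟨x, hx⟩ := by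
    apply Subtype.ext
    exact congrArg (Subtype.val : Zab → ℂ) h
  rw [h3] at h2
  exact (Complex.conj_eq_iff_re.1 h2.symm).symm

theorem E1 {f : Zab} (hf : cj f = f) {T : Finset ℂ} (hT : (T : Set ℂ) ⊆ rootsU)
    (hfT : (f : ℂ) ∈ KT T) (h : ∀ φ : KT T →+* ℂ, (φ ⟨f, hfT⟩).re < 0) : ¬ E f := by
  rintro ⟨a, b, c, ha, hb, hab, hc, hb0⟩
  obtain ⟨T', hTT', hT', hmem⟩ := exists_common_extend T hT {(a : ℂ), (b : ℂ), (c : ℂ)} (by
    intro x hx
    simp only [Finset.mem_insert, Finset.mem_singleton] at hx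
    rcases hx with rfl | rfl | rfl
    · exact a.2.1
    · exact b.2.1
    · exact c.2.1)
  have haT := hmem (a : ℂ) (by simp)
  have hbT := hmem (b : ℂ) (by simp)
  have hcT := hmem (c : ℂ) (by simp)
  have hfT' : (f : ℂ) ∈ KT T' := KT_mono hTT' hfT
  have hφ : ∀ φ : KT T' →+* ℂ, (φ ⟨f, hfT'⟩).re < 0 := by
    intro φ
    exact h (φ.comp (IntermediateField.inclusion (KT_mono hTT') : KT T →+* KT T'))
  have hc0 : (c : ℂ) = 0 := by
    refine eq_zero_of_small hT' hcT c.2.2 fun φ => ?_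
    have e1 : (⟨a, haT⟩ : KT T') ^ 2 - ⟨f, hfT'⟩ * ⟨b, hbT⟩ ^ 2 = 1 := by
      apply Subtype.ext
      simpa using congrArg Subtype.val hab
    have e2 : (⟨a, haT⟩ : KT T') - 1 = 3 * ⟨c, hcT⟩ := by
      apply Subtype.ext
      have := congrArg Subtype.val hc
      rw [Subring.coe_mul, coe_three] at this
      rw [MulMemClass.coe_mul, coe_threeF]
      simpa using this
    have e3 := congrArg φ e1
    have e4 := congrArg φ e2
    rw [map_sub, map_pow, map_mul, map_pow, map_one, emb_real hT' φ haT ha,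
      emb_real hT' φ hbT hb, emb_real hT' φ hfT' hf] at e3
    rw [map_sub, map_mul, map_one, map_ofNat, emb_real hT' φ haT ha] at e4
    set A := (φ ⟨a, haT⟩).re
    set B := (φ ⟨b, hbT⟩).re
    have h5 := hφ φ
    set G := (φ ⟨f, hfT'⟩).re
    have e5 : A ^ 2 - G * B ^ 2 = 1 := by exact_mod_cast e3
    have e6 : A ^ 2 ≤ 1 := by nlinarith [sq_nonneg B]
    have e7 : |A| ≤ 1 := by
      rw [← sq_abs] at e6
      have := abs_nonneg A
      nlinarith
    have e8 : ‖(A : ℂ) - 1‖ ≤ 2 := by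
      refine (norm_sub_le _ _).trans ?_
      rw [Complex.norm_real, Real.norm_eq_abs, norm_one]
      linarith
    rw [e4, norm_mul] at e8
    have e9 : ‖(3 : ℂ)‖ = 3 := by simp
    rw [e9] at e8
    linarith
  have hc0' : c = 0 := Subtype.ext hc0
  rw [hc0', mul_zero] at hc
  have ha1 : a = 1 := sub_eq_zero.1 hc
  rw [ha1] at hab
  have h6 : f * b ^ 2 = 0 := by linear_combination -hab
  rcases mul_eq_zero.1 h6 with h7 | h7
  · have h8 := hφ (algebraMap (KT T') ℂ)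
    have h9 : (algebraMap (KT T') ℂ) ⟨f, hfT'⟩ = f := rfl
    rw [h9, h7] at h8
    simp at h8
  · exact hb0 (pow_eq_zero_iff (by norm_num) |>.1 h7)

theorem dio_E {α : Type} {f : (α → Zab) → Zab} (hf : PF f) : Dio (fun v => E (f v)) := by
  refine Dio.app (P := E) ?_ hf
  have h : Dio (fun x : Unit ⊕ Fin 3 → Zab =>
      cj (x (Sum.inr 0)) = x (Sum.inr 0) ∧ cj (x (Sum.inr 1)) = x (Sum.inr 1) ∧
      x (Sum.inr 0) ^ 2 - x (Sum.inl ()) * x (Sum.inr 1) ^ 2 = 1 ∧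
      x (Sum.inr 0) - 1 = 3 * x (Sum.inr 2) ∧ x (Sum.inr 1) ≠ 0) := by
    have V := fun a : Unit ⊕ Fin 3 => PF.var a
    exact (dio_real (V _)).and <| (dio_real (V _)).and <|
      (Dio.eq (((V _).pow 2).sub ((V _).mul ((V _).pow 2))) PF.one).and <|
      (Dio.eq ((V _).sub PF.one) ((PF.ofNat 3).mul (V _))).and (Dio.ne (V _) PF.zero)
  refine h.exs.congr fun v => ?_
  constructor
  · rintro ⟨w, hw⟩
    exact ⟨w 0, w 1, w 2, hw⟩
  · rintro ⟨a, b, c, h⟩
    exact ⟨![a, b, c], h⟩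

end Pool.Agent.Helper60.ZEA
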