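import Pool.Agent.Helper60.ZEA.Pell
import Pool.Agent.Helper88.Pell

/-!
The certificate that a real element of `ℤ^ab` has a positive conjugate: completeness.
-/

namespace Pool.Agent.Helper60.ZEA

open Pool.Agent.Helper63.ZabUnd Complex IntermediateField NumberField

/-- The field of the complex numbers which are fixed by conjugation. -/
noncomputable def RF : IntermediateField ℚ ℂ :=
  Subfield.toIntermediateField (RingHom.eqLocusField (starRingEnd ℂ) (RingHom.id ℂ)) (by
    intro x
    rw [RingHom.mem_eqLocusField]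
    simp)

theorem mem_RF {z : ℂ} : z ∈ RF ↔ (starRingEnd ℂ) z = z := Iff.rfl

/-- The case in which `f` is a square. -/
theorem E_sq {g : Zab} (hg : cj g = g) (hg0 : g ≠ 0) : E (g ^ 2) := by
  obtain ⟨m, hm, q, hq⟩ := exists_dvd_int hg0
  obtain ⟨v, v', t, hv, hv1, ht⟩ := exists_unit_congr (6 * m) (mul_ne_zero (by norm_num) hm)
  obtain ⟨r, hr⟩ : ∃ r, r = q * t := ⟨_, rfl⟩
  have h1 : v - 1 = 6 * g * r := by
    rw [ht, hr]
    push_cast
    rw [hq]
    ring
  have hcv : cj v = v := unit_real (s := 2 * g * r) hv (by rw [h1]; ring)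
  have hv'0 : v ≠ 0 := left_ne_zero_of_mul_eq_one hv
  have hcv' : cj v' = v' := by
    apply mul_left_cancel₀ hv'0
    have := congrArg cj hv
    rw [map_mul, hcv, map_one] at this
    rw [this, hv]
  have h6 : (6 : Zab) ≠ 0 := by norm_num
  have hcr : cj r = r := by
    have h2 := congrArg cj h1
    rw [map_sub, map_one, hcv, map_mul, map_mul, map_ofNat, hg, h1] at h2
    exact (mul_left_cancel₀ (mul_ne_zero h6 hg0) h2).symm
  have hr0 : r ≠ 0 := by
    intro h0
    rw [h0, mul_zero] at h1
    exact hv1 (sub_eq_zero.1 h1)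
  refine ⟨1 + 3 * g * r * (1 - v'), 3 * r * (1 + v'), g * r * (1 - v'), ?_, ?_, ?_, by ring, ?_⟩
  · simp only [map_add, map_mul, map_sub, map_one, map_ofNat, hg, hcr, hcv']
  · simp only [map_add, map_mul, map_one, map_ofNat, hcr, hcv']
  · have h2 : (1 + 3 * g * r * (1 - v')) + g * (3 * r * (1 + v')) = v := by
      linear_combination -h1
    have h3 : (1 + 3 * g * r * (1 - v')) - g * (3 * r * (1 + v')) = v' := by
      linear_combination v' * h1 - hv
    calc _ = ((1 + 3 * g * r * (1 - v')) + g * (3 * r * (1 + v'))) *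
        ((1 + 3 * g * r * (1 - v')) - g * (3 * r * (1 + v'))) := by ring
      _ = 1 := by rw [h2, h3, hv]
  · intro h0
    rcases mul_eq_zero.1 h0 with h2 | h2
    · exact mul_ne_zero (by norm_num) hr0 h2
    · have h3 : v' = -1 := eq_neg_of_add_eq_zero_right h2
      have h4 : v = -1 := by
        rw [h3] at hv
        linear_combination -hv
      rw [h4] at h1
      refine prime_not_isUnit Nat.prime_three (IsUnit.of_mul_eq_one (-(g * r)) ?_)
      have h5 : (2 : Zab) * (3 * -(g * r)) = 2 * 1 := by linear_combination h1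
      have h7 := mul_left_cancel₀ (two_ne_zero) h5
      push_cast
      exact h7

theorem E2 {f : Zab} (hf : cj f = f) {T : Finset ℂ} (hT : (T : Set ℂ) ⊆ rootsU)
    (hfT : (f : ℂ) ∈ KT T) (φ : KT T →+* ℂ) (h : 0 < (φ ⟨f, hfT⟩).re) : E f := by
  have hf0 : f ≠ 0 := by
    rintro rfl
    have h1 : (⟨((0 : Zab) : ℂ), hfT⟩ : KT T) = 0 := rfl
    rw [h1, map_zero] at h
    simp at h
  set K := ℚ⟮(f : ℂ)⟯ with hK
  have hfin : FiniteDimensional ℚ K := IntermediateField.adjoin.finiteDimensional f.2.2.tower_top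
  have hNF : NumberField K := { to_charZero := inferInstance, to_finiteDimensional := hfin }
  have hKR : K ≤ RF := by
    rw [hK, IntermediateField.adjoin_simple_le_iff]
    exact congrArg (Subtype.val : Zab → ℂ) hf
  have hKQ : K ≤ Qab := by
    rw [hK, IntermediateField.adjoin_simple_le_iff]
    exact f.2.1
  have hKT : K ≤ KT T := by
    rw [hK, IntermediateField.adjoin_simple_le_iff]
    exact hfT
  let fK : K := ⟨f, IntermediateField.mem_adjoin_simple_self _ _⟩
  have hfKi : IsIntegral ℤ fK := by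
    have := isIntegral_algHom_iff (R := ℤ) (K.val.restrictScalars ℤ) Subtype.val_injective
      (x := fK)
    exact this.1 f.2.2
  -- the elements of `K` in `ℤ^ab`
  have hZ : ∀ x : K, IsIntegral ℤ x → (x : ℂ) ∈ Zab := by
    intro x hx
    refine ⟨hKQ x.2, ?_⟩
    exact hx.map ((algebraMap K ℂ).toIntAlgHom)
  by_cases hsq : IsSquare fK
  · obtain ⟨g, hg⟩ := hsq
    have hgi : IsIntegral ℤ g := by
      refine IsIntegral.of_pow (n := 2) (by norm_num) ?_
      rw [sq, ← hg]
      exact hfKi
    have hfg : f = (⟨g, hZ g hgi⟩ : Zab) ^ 2 := by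
      apply Subtype.ext
      have := congrArg (Subtype.val : K → ℂ) hg
      rw [sq]
      exact this
    rw [hfg]
    refine E_sq ?_ ?_
    · apply Subtype.ext
      exact hKR g.2
    · intro h0
      rw [h0] at hfg
      exact hf0 (by rw [hfg]; ring)
  · let φK : K →+* ℂ := φ.comp (IntermediateField.inclusion hKT : K →+* KT T)
    have hφK : ∀ x : K, φK x = ((φK x).re : ℂ) := by
      intro x
      obtain ⟨h1, h2⟩ := conj_comm hT φ (hKT x.2)
      have h3 : (⟨(starRingEnd ℂ) (x : ℂ), h1⟩ : KT T) = ⟨x, hKT x.2⟩ :=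
        Subtype.ext (hKR x.2)
      rw [h3] at h2
      exact (Complex.conj_eq_iff_re.1 h2.symm).symm
    let ψ : K →+* ℝ :=
      { toFun := fun x => (φK x).re
        map_one' := by rw [map_one]; rfl
        map_mul' := fun x y => by
          apply Complex.ofReal_injective
          rw [Complex.ofReal_mul, ← hφK, ← hφK, ← hφK, map_mul]
        map_zero' := by rw [map_zero]; rfl
        map_add' := fun x y => by rw [map_add, Complex.add_re] }
    obtain ⟨a, b, hab, ⟨c, hc⟩, hb⟩ :=
      Pool.Agent.Helper88.Pell.pell (K := K) ⟨fK, hfKi⟩ hsq ψ h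
    let τ : 𝓞 K →+* Zab := ((algebraMap K ℂ).comp (algebraMap (𝓞 K) K)).codRestrict Zab
      (fun x => hZ (x : K) x.2)
    have hτ : ∀ x : 𝓞 K, cj (τ x) = τ x := fun x => Subtype.ext (hKR (x : K).2)
    have hτf : τ ⟨fK, hfKi⟩ = f := Subtype.ext rfl
    refine ⟨τ a, τ b, τ c, hτ a, hτ b, ?_, ?_, ?_⟩
    · rw [← hτf, ← map_pow, ← map_pow, ← map_mul, ← map_sub, hab, map_one]
    · rw [← map_one τ, ← map_sub, hc, map_mul, map_ofNat]
    · intro h0
      apply hb
      have h1 : ((τ b : Zab) : ℂ) = 0 := by rw [h0]; rfl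
      have h2 : ((b : K) : ℂ) = 0 := h1
      have h3 : (b : K) = 0 := Subtype.ext h2
      exact_mod_cast h3

end Pool.Agent.Helper60.ZEA
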