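import Pool.Agent.Helper60.ZEA.PellB

/-!
The embeddings of `ℚ^ab` and the values of elements of `ℤ^ab`.
-/

namespace Pool.Agent.Helper60.ZEA

open Pool.Agent.Helper63.ZabUnd Complex IntermediateField

/-- The inclusion of `ℤ^ab` in `ℚ^ab`. -/
noncomputable def toQ : Zab →+* Qab := Zab.subtype.codRestrict Qab (fun x => x.2.1)

theorem coe_toQ (x : Zab) : ((toQ x : Qab) : ℂ) = x := rfl

/-- The value of an element of `ℤ^ab` at an embedding of `ℚ^ab`. -/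
noncomputable def pl (Φ : Qab →+* ℂ) : Zab →+* ℂ := Φ.comp toQ

theorem pl_apply (Φ : Qab →+* ℂ) (x : Zab) : pl Φ x = Φ (toQ x) := rfl

theorem pl_inj (Φ : Qab →+* ℂ) : Function.Injective (pl Φ) := by
  intro x y h
  have h1 : toQ x = toQ y := Φ.injective h
  exact Subtype.ext (congrArg (Subtype.val : Qab → ℂ) h1)

theorem pl_cj (Φ : Qab →+* ℂ) (x : Zab) : pl Φ (cj x) = (starRingEnd ℂ) (pl Φ x) := by
  have hx : (x : ℂ) ∈ adjoin ℚ rootsU := x.2.1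
  obtain ⟨h1, h2⟩ := conj_comm (S := rootsU) (fun _ h => h) Φ hx
  exact h2

theorem pl_real (Φ : Qab →+* ℂ) {x : Zab} (h : cj x = x) : pl Φ x = ((pl Φ x).re : ℂ) := by
  have := pl_cj Φ x
  rw [h] at this
  exact (Complex.conj_eq_iff_re.1 this.symm).symm

/-- The conjugate embedding. -/
noncomputable def cpl (Φ : Qab →+* ℂ) : Qab →+* ℂ := (starRingEnd ℂ).comp Φ

theorem pl_cpl (Φ : Qab →+* ℂ) (x : Zab) : pl (cpl Φ) x = (starRingEnd ℂ) (pl Φ x) := rfl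

theorem KT_le {T : Finset ℂ} (hT : (T : Set ℂ) ⊆ rootsU) : KT T ≤ Qab :=
  IntermediateField.adjoin.mono ℚ _ _ hT

theorem extend {T : Finset ℂ} (hT : (T : Set ℂ) ⊆ rootsU) (φ : KT T →+* ℂ) :
    ∃ Φ : Qab →+* ℂ, ∀ (x : Zab) (hx : (x : ℂ) ∈ KT T), pl Φ x = φ ⟨x, hx⟩ := by
  have hL : KT T ≤ adjoin ℚ rootsU := KT_le hT
  obtain ⟨Φ, hΦ⟩ := IntermediateField.exists_algHom_adjoin_of_splits (F := ℚ) (E := ℂ) (K := ℂ)
    (S := rootsU) (fun s hs => ⟨(rootsU_integral hs).tower_top, IsAlgClosed.splits _⟩)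
    (L := KT T) φ.toRatAlgHom hL
  refine ⟨(Φ : adjoin ℚ rootsU →+* ℂ), fun x hx => ?_⟩
  have h1 := congrArg (fun g : KT T →ₐ[ℚ] ℂ => g ⟨x, hx⟩) hΦ
  exact h1

theorem exists_T (x : Zab) : ∃ T : Finset ℂ, (T : Set ℂ) ⊆ rootsU ∧ (x : ℂ) ∈ KT T := by
  obtain ⟨T, hT, h⟩ := exists_common {(x : ℂ)} (by
    intro y hy
    rw [Finset.mem_singleton] at hy
    rw [hy]
    exact x.2.1)
  exact ⟨T, hT, h _ (Finset.mem_singleton_self _)⟩

/-- A nonzero element has a conjugate of absolute value at least one. -/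
theorem exists_place {x : Zab} (h0 : x ≠ 0) : ∃ Φ : Qab →+* ℂ, 1 ≤ ‖pl Φ x‖ := by
  obtain ⟨T, hT, hx⟩ := exists_T x
  by_contra hcon
  push Not at hcon
  apply h0
  apply Subtype.ext
  refine eq_zero_of_small hT hx x.2.2 fun φ => ?_
  obtain ⟨Φ, hΦ⟩ := extend hT φ
  have := hcon Φ
  rwa [hΦ x hx] at this

theorem not_E {f : Zab} (hf : cj f = f) (h : ∀ Φ : Qab →+* ℂ, (pl Φ f).re < 0) : ¬ E f := by
  obtain ⟨T, hT, hx⟩ := exists_T f
  refine E1 hf hT hx fun φ => ?_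
  obtain ⟨Φ, hΦ⟩ := extend hT φ
  have := h Φ
  rwa [hΦ f hx] at this

theorem re_le_of_not_E {f : Zab} (hf : cj f = f) (h : ¬ E f) (Φ : Qab →+* ℂ) :
    (pl Φ f).re ≤ 0 := by
  obtain ⟨T, hT, hx⟩ := exists_T f
  by_contra hcon
  rw [not_le] at hcon
  exact h (E2 hf hT hx (Φ.comp (IntermediateField.inclusion (KT_le hT) : KT T →+* Qab)) hcon)

/-- The conjugates of an element of `ℤ^ab` are bounded. -/
theorem exists_bound (x : Zab) : ∃ B : ℝ, ∀ Φ : Qab →+* ℂ, ‖pl Φ x‖ ≤ B := by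
  obtain ⟨P, hP, hPx⟩ := isIntegral_Zab x
  have hP0 : P.map (Int.castRingHom ℂ) ≠ 0 := (hP.map _).ne_zero
  have hfin : ((P.map (Int.castRingHom ℂ)).roots.toFinset : Set ℂ).Finite := Finset.finite_toSet _
  obtain ⟨B, hB⟩ := (hfin.image (fun z : ℂ => ‖z‖)).bddAbove
  refine ⟨B, fun Φ => hB ⟨pl Φ x, ?_, rfl⟩⟩
  rw [Finset.mem_coe, Multiset.mem_toFinset, Polynomial.mem_roots hP0, Polynomial.IsRoot.def,
    Polynomial.eval_map]
  have h1 := congrArg (pl Φ) hPx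
  rw [Polynomial.hom_eval₂, map_zero] at h1
  rw [← h1]
  congr 1
  exact RingHom.ext_int _ _

end Pool.Agent.Helper60.ZEA
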