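import Pool.Agent.Helper63.ZabUnd.Real

/-!
Real elements of `ℤ^ab`: the soundness part of the Diophantine definition of `ℤ^ab ∩ ℝ`.
-/

namespace Pool.Agent.Helper60.ZEA

open Pool.Agent.Helper63.ZabUnd Complex IntermediateField

theorem coe_six : ((6 : Zab) : ℂ) = 6 := map_ofNat Zab.subtype 6

theorem coe_three : ((3 : Zab) : ℂ) = 3 := map_ofNat Zab.subtype 3

theorem coe_sixF (F : IntermediateField ℚ ℂ) : ((6 : F) : ℂ) = 6 := map_ofNat (algebraMap F ℂ) 6

theorem coe_threeF (F : IntermediateField ℚ ℂ) : ((3 : F) : ℂ) = 3 :=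
  map_ofNat (algebraMap F ℂ) 3

/-- An element of `ℤ^ab` all whose conjugates have absolute value less than one vanishes. -/
theorem eq_zero_of_small {T : Finset ℂ} (hT : (T : Set ℂ) ⊆ rootsU) {x : ℂ}
    (hx : x ∈ adjoin ℚ (T : Set ℂ)) (hi : IsIntegral ℤ x)
    (h : ∀ φ : adjoin ℚ (T : Set ℂ) →+* ℂ, ‖φ ⟨x, hx⟩‖ < 1) : x = 0 := by
  by_contra h0
  have h1 := kronecker hT hx h0 hi (fun φ => (h φ).le)
  have h2 := h (algebraMap _ ℂ)
  have h3 : (algebraMap (adjoin ℚ (T : Set ℂ)) ℂ) ⟨x, hx⟩ = x := rfl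
  rw [h3, rootsU_norm h1] at h2
  exact lt_irrefl _ h2

/-- Finitely many elements of `ℚ^ab` lie in a field generated by finitely many roots of unity. -/
theorem exists_common (s : Finset ℂ) (hs : ∀ x ∈ s, x ∈ Qab) :
    ∃ T : Finset ℂ, (T : Set ℂ) ⊆ rootsU ∧ ∀ x ∈ s, x ∈ adjoin ℚ (T : Set ℂ) := by
  classical
  have h1 : ∀ x ∈ s, ∃ T : Finset ℂ, (T : Set ℂ) ⊆ rootsU ∧ x ∈ adjoin ℚ (T : Set ℂ) :=
    fun x hx => exists_finset (hs x hx)
  choose! T hT hT' using h1
  refine ⟨s.biUnion T, ?_, ?_⟩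
  · intro y hy
    rw [Finset.mem_coe, Finset.mem_biUnion] at hy
    obtain ⟨x, hx, hy⟩ := hy
    exact hT x hx hy
  · intro x hx
    refine IntermediateField.adjoin.mono ℚ _ _ ?_ (hT' x hx)
    intro y hy
    rw [Finset.mem_coe, Finset.mem_biUnion]
    exact ⟨x, hx, hy⟩

/-- Complex conjugation as a ring endomorphism of `ℤ^ab`. -/
noncomputable def cj : Zab →+* Zab where
  toFun := conjZ
  map_one' := by ext; simp [conjZ]
  map_mul' := conjZ_mul
  map_zero' := by ext; simp [conjZ]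
  map_add' x y := by ext; simp [conjZ]

theorem coe_cj (x : Zab) : ((cj x : Zab) : ℂ) = (starRingEnd ℂ) (x : ℂ) := rfl

theorem cj_cj (x : Zab) : cj (cj x) = x := by
  ext
  rw [coe_cj, coe_cj]
  simp

/-- If `6 z` divides `conj z - z` then `z` is real. -/
theorem real_of_dvd {z t : Zab} (h : cj z - z = 6 * z * t) : cj z = z := by
  by_cases hz : z = 0
  · rw [hz, map_zero]
  obtain ⟨T, hT, hTx⟩ := exists_common {(z : ℂ), (t : ℂ)} (by
    intro x hx
    rw [Finset.mem_insert, Finset.mem_singleton] at hx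
    rcases hx with rfl | rfl
    · exact z.2.1
    · exact t.2.1)
  have hzT := hTx (z : ℂ) (by simp)
  have htT := hTx (t : ℂ) (by simp)
  have ht0 : (t : ℂ) = 0 := by
    refine eq_zero_of_small hT htT t.2.2 fun φ => ?_
    obtain ⟨h1, h2⟩ := conj_comm hT φ hzT
    have e1 : (⟨(starRingEnd ℂ) (z : ℂ), h1⟩ : adjoin ℚ (T : Set ℂ)) - ⟨z, hzT⟩ =
        6 * ⟨z, hzT⟩ * ⟨t, htT⟩ := by
      apply Subtype.ext
      have := congrArg (Subtype.val) h
      simpa [coe_cj, coe_six, coe_sixF] using this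
    have e2 := congrArg φ e1
    rw [map_sub, map_mul, map_mul, h2, map_ofNat] at e2
    have hz0 : φ ⟨z, hzT⟩ ≠ 0 := by
      rw [Ne, map_eq_zero]
      intro h0
      apply hz
      apply Subtype.ext
      simpa using congrArg (Subtype.val) h0
    have e3 : ‖(starRingEnd ℂ) (φ ⟨z, hzT⟩) - φ ⟨z, hzT⟩‖ ≤ 2 * ‖φ ⟨z, hzT⟩‖ := by
      refine (norm_sub_le _ _).trans ?_
      have : ‖(starRingEnd ℂ) (φ ⟨z, hzT⟩)‖ = ‖φ ⟨z, hzT⟩‖ := RCLike.norm_conj _
      rw [this]
      linarith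
    rw [e2, norm_mul, norm_mul] at e3
    have e4 : ‖(6 : ℂ)‖ = 6 := by simp
    rw [e4] at e3
    have e5 : 0 < ‖φ ⟨z, hzT⟩‖ := norm_pos_iff.2 hz0
    by_contra h6
    rw [not_lt] at h6
    nlinarith
  have ht : t = 0 := Subtype.ext ht0
  rw [ht, mul_zero] at h
  exact sub_eq_zero.1 h

/-- Units congruent to `1` modulo `3` are real. -/
theorem unit_real {u u' s : Zab} (h : u * u' = 1) (hs : u - 1 = 3 * s) : cj u = u := by
  obtain ⟨η, hη, e⟩ := conj_unit u.2 u'.2 (by simpa using congrArg Subtype.val h)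
  have hηT : (({η} : Finset ℂ) : Set ℂ) ⊆ rootsU := by
    intro x hx
    rw [Finset.coe_singleton, Set.mem_singleton_iff] at hx
    exact hx ▸ hη
  have hηm : η ∈ adjoin ℚ (({η} : Finset ℂ) : Set ℂ) :=
    IntermediateField.subset_adjoin _ _ (by simp)
  let y : Zab := ⟨η, rootsU_mem_Zab hη⟩
  have hy : cj u = y * u := Subtype.ext (by rw [coe_cj, e]; rfl)
  have h3 : y - 1 = 3 * ((cj s - s) * u') := by
    have h4 := congrArg cj hs
    rw [map_sub, map_mul, map_one, map_ofNat, hy] at h4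
    have h5 : y - 1 = (y * u - 1 - (u - 1)) * u' := by linear_combination (1 - y) * h
    rw [h5, h4, hs]
    ring
  have h3' : η - 1 = 3 * (((cj s - s) * u' : Zab) : ℂ) := by
    have := congrArg Subtype.val h3
    simpa [y, coe_three] using this
  have hd : (((cj s - s) * u' : Zab) : ℂ) = (η - 1) / 3 := by
    rw [h3']
    ring
  have hdT : (((cj s - s) * u' : Zab) : ℂ) ∈ adjoin ℚ (({η} : Finset ℂ) : Set ℂ) := by
    rw [hd]
    exact div_mem (sub_mem hηm (one_mem _)) (by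
      have := IntermediateField.natCast_mem (adjoin ℚ (({η} : Finset ℂ) : Set ℂ)) 3
      simpa using this)
  have h0 : (((cj s - s) * u' : Zab) : ℂ) = 0 := by
    refine eq_zero_of_small hηT hdT ((cj s - s) * u').2.2 fun φ => ?_
    have e1 : (⟨η, hηm⟩ : adjoin ℚ (({η} : Finset ℂ) : Set ℂ)) - 1 =
        3 * ⟨(((cj s - s) * u' : Zab) : ℂ), hdT⟩ := by
      apply Subtype.ext
      simpa [coe_threeF] using h3'
    have e2 := congrArg φ e1
    rw [map_sub, map_mul, map_one, map_ofNat] at e2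
    have e3 : ‖φ ⟨η, hηm⟩‖ = 1 := by
      apply rootsU_norm
      obtain ⟨n, hn, h⟩ := hη
      refine ⟨n, hn, ?_⟩
      rw [← map_pow, ← map_one φ]
      congr 1
      apply Subtype.ext
      simpa using h
    have e4 : ‖φ ⟨η, hηm⟩ - 1‖ ≤ 2 := by
      refine (norm_sub_le _ _).trans ?_
      rw [e3, norm_one]
      norm_num
    rw [e2, norm_mul] at e4
    have e5 : ‖(3 : ℂ)‖ = 3 := by simp
    rw [e5] at e4
    linarith
  have hη1 : η = 1 := by
    rw [h0, mul_zero] at h3'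
    exact sub_eq_zero.1 h3'
  apply Subtype.ext
  rw [coe_cj, e, hη1, one_mul]

/-- A Diophantine set of real elements which contains all nonzero integers. -/
def R1 (z : Zab) : Prop := ∃ u u' v v' s t q : Zab, u * u' = 1 ∧ v * v' = 1 ∧ u - 1 = 3 * s ∧
  v - 1 = 6 * z * t ∧ v ≠ 1 ∧ u - 1 - z * (v - 1) = q * (v - 1) ^ 2

theorem R1.real {z : Zab} (h : R1 z) : cj z = z := by
  obtain ⟨u, u', v, v', s, t, q, hu, hv, hs, ht, hv1, hq⟩ := h
  have hcu := unit_real hu hs
  have hcv := unit_real (s := 2 * z * t) hv (by rw [ht]; ring)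
  have h1 := congrArg cj hq
  rw [map_sub, map_sub, map_mul, map_mul, map_pow, map_sub, map_one, hcu, hcv] at h1
  have h2 : cj z - z = 6 * z * (t * (q - cj q)) := by
    have h3 : v - 1 ≠ 0 := sub_ne_zero.2 hv1
    apply mul_left_cancel₀ h3
    have h4 : (v - 1) * (6 * z * (t * (q - cj q))) = (v - 1) ^ 2 * (q - cj q) := by
      rw [sq]
      nth_rewrite 3 [ht]
      ring
    rw [h4]
    linear_combination hq - h1
  exact real_of_dvd h2

/-- A Diophantine set of real elements which contains `ℤ`. -/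
def Rk (z : Zab) : Prop := ∃ x y : Zab, R1 x ∧ R1 y ∧ z = x - y

theorem Rk.real {z : Zab} (h : Rk z) : cj z = z := by
  obtain ⟨x, y, hx, hy, rfl⟩ := h
  rw [map_sub, hx.real, hy.real]

/-- The defining formula of the real elements. -/
def RR (z : Zab) : Prop := ∃ ζ ζ' N j B r a b : Zab, (ζ : ℂ) ∈ rootsU ∧ ζ * ζ' = 1 ∧ Rk N ∧
  Rk j ∧ Rk B ∧ Rk r ∧ N ≠ 0 ∧ 6 * N * (z + j * (ζ + ζ')) - r = 6 * (B - (ζ + ζ')) * a ∧
  B - (ζ + ζ') = (6 * N * (z + j * (ζ + ζ')) - 1) * b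

theorem cj_add_inv {ζ ζ' : Zab} (hζ : (ζ : ℂ) ∈ rootsU) (h : ζ * ζ' = 1) :
    cj (ζ + ζ') = ζ + ζ' := by
  have h1 : cj ζ = ζ' := conjZ_root hζ h
  have h2 : cj ζ' = ζ := by rw [← h1, cj_cj]
  rw [map_add, h1, h2, add_comm]

theorem RR.real {z : Zab} (h : RR z) : cj z = z := by
  obtain ⟨ζ, ζ', N, j, B, r, a, b, hζ, hinv, hN, hj, hB, hr, hN0, h1, h2⟩ := h
  set θ := ζ + ζ' with hθ
  have hθc : cj θ = θ := cj_add_inv hζ hinv
  obtain ⟨w, hw⟩ : ∃ w, w = 6 * N * (z + j * θ) := ⟨_, rfl⟩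
  rw [← hw] at h1 h2
  have h3 : cj w - r = 6 * (B - θ) * cj a := by
    have := congrArg cj h1
    rw [map_sub, hr.real, map_mul, map_mul, map_sub, hB.real, hθc, map_ofNat] at this
    exact this
  have h4 : cj (w - 1) - (w - 1) = 6 * (w - 1) * (b * (cj a - a)) := by
    rw [map_sub, map_one]
    linear_combination h3 - h1 + 6 * (cj a - a) * h2
  have h5 := real_of_dvd h4
  rw [map_sub, map_one] at h5
  have h6 : cj w = w := sub_left_injective h5
  rw [hw, map_mul, map_mul, map_add, map_mul, hN.real, hj.real, hθc, map_ofNat] at h6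
  have h7 : (6 * N) * (cj z - z) = 0 := by linear_combination h6
  rcases mul_eq_zero.1 h7 with h8 | h8
  · exfalso
    rcases mul_eq_zero.1 h8 with h9 | h9
    · have : (6 : Zab) ≠ 0 := by norm_num
      exact this h9
    · exact hN0 h9
  · exact sub_eq_zero.1 h8

end Pool.Agent.Helper60.ZEA
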