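import Pool.Agent.Helper60.ZEA.Anal

/-!
The sentence, and its soundness.
-/

namespace Pool.Agent.Helper60.ZEA

open Pool.Agent.Helper63.ZabUnd Complex MvPolynomial

variable {ι : Type} [Fintype ι]

/-- The element `h`. -/
noncomputable def hval (F : MvPolynomial (Option ι) ℤ) (C D n : ℕ) (ζ ζ' : Zab)
    (x y : ι → Zab) : Zab :=
  C * (1 + (n : Zab) ^ 2 + ∑ i, x i * y i) ^ D * ((ζ - 1) * (ζ' - 1)) +
    8 * (Fv F n x * Fv F n y)

/-- The value of `h` at an embedding. -/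
noncomputable def hR (F : MvPolynomial (Option ι) ℤ) (C D n : ℕ) (z : ℂ) (X : ι → ℂ) : ℝ :=
  (C : ℝ) * (1 + (n : ℝ) ^ 2 + ∑ i, ‖X i‖ ^ 2) ^ D * ‖z - 1‖ ^ 2 + 8 * ‖Fv F n X‖ ^ 2

/-- The existential part of the sentence. -/
def Av (ζ ζ' α : Zab) (η η' x y : ι → Zab) : Prop :=
  (ζ : ℂ) ∈ rootsU ∧ ζ * ζ' = 1 ∧ ζ ≠ 1 ∧ cj α = α ∧ α ≠ 0 ∧
  ∀ i, (η i : ℂ) ∈ rootsU ∧ η i * η' i = 1 ∧ x i * (ζ - 1) = η i - 1 ∧
    y i * (ζ' - 1) = η' i - 1

/-- The sentence. -/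
def Sn (F : MvPolynomial (Option ι) ℤ) (C D n : ℕ) : Prop :=
  ∃ (ζ ζ' α : Zab) (η η' x y : ι → Zab), Av ζ ζ' α η η' x y ∧
    ¬ E (4 * α ^ 2 * hval F C D n ζ ζ' x y - 2 * α ^ 2 - 1) ∧
    ∀ θ θ' s s' : Zab, (θ : ℂ) ∈ rootsU → θ * θ' = 1 → s * (ζ - 1) = θ - 1 →
      s' * (ζ' - 1) = θ' - 1 → s ≠ 0 → ¬ E (4 * α ^ 2 * (1 - s * s') - 1)

theorem pl_mul_cj (Φ : Qab →+* ℂ) (x : Zab) : pl Φ (x * cj x) = ((‖pl Φ x‖ ^ 2 : ℝ) : ℂ) := by
  rw [map_mul, pl_cj, Complex.mul_conj']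
  push_cast
  rfl

theorem cj_mul_cj (x : Zab) : cj (x * cj x) = x * cj x := by
  rw [map_mul, cj_cj, mul_comm]

theorem hval_eq (F : MvPolynomial (Option ι) ℤ) (C D n : ℕ) (ζ : Zab) (x : ι → Zab) :
    hval F C D n ζ (cj ζ) x (fun i => cj (x i)) =
      C * (1 + (n : Zab) ^ 2 + ∑ i, x i * cj (x i)) ^ D * ((ζ - 1) * cj (ζ - 1)) +
    8 * (Fv F n x * cj (Fv F n x)) := by
  unfold hval
  rw [map_Fv, map_sub, map_one]

theorem cj_hval (F : MvPolynomial (Option ι) ℤ) (C D n : ℕ) (ζ : Zab) (x : ι → Zab) :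
    cj (hval F C D n ζ (cj ζ) x (fun i => cj (x i))) =
      hval F C D n ζ (cj ζ) x (fun i => cj (x i)) := by
  rw [hval_eq]
  simp only [map_add, map_mul cj (C : Zab) _, map_mul cj (8 : Zab) _,
    map_mul cj (_ * _) _, map_pow, map_sum, cj_mul_cj, map_natCast, map_one, map_ofNat]

theorem pl_hval (Φ : Qab →+* ℂ) (F : MvPolynomial (Option ι) ℤ) (C D n : ℕ) (ζ : Zab)
    (x : ι → Zab) : pl Φ (hval F C D n ζ (cj ζ) x (fun i => cj (x i))) =
      (hR F C D n (pl Φ ζ) (fun i => pl Φ (x i)) : ℂ) := by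
  rw [hval_eq]
  unfold hR
  rw [map_add, map_mul _ _ ((ζ - 1) * cj (ζ - 1)), map_mul _ (C : Zab) _,
    map_mul _ 8 _, pl_mul_cj, pl_mul_cj, map_pow, map_add, map_add, map_sum, map_natCast,
    map_ofNat, map_pow, map_natCast, map_one, map_sub, map_one, map_Fv]
  simp only [pl_mul_cj]
  push_cast
  rfl

/-- The group generated by finitely many roots of unity congruent to `1` modulo `δ`. -/
theorem exists_gamma {κ : Type} [Fintype κ] (Ψ : Zab →+* ℂ) (hΨ : Function.Injective Ψ) (δ : Zab)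
    (u : κ → Zab) (hu : ∀ j, (u j : ℂ) ∈ rootsU) (hd : ∀ j, δ ∣ u j - 1) (j0 : κ)
    (hj0 : u j0 ≠ 1) :
    ∃ (M : ℕ) (γ : Zab), 2 ≤ M ∧ (γ : ℂ) ∈ rootsU ∧ δ ∣ γ - 1 ∧ γ ≠ 1 ∧
      Ψ γ = Complex.exp (2 * Real.pi * Complex.I / M) ∧
      ∀ j, ∃ k < M, Ψ (u j) = Complex.exp (2 * Real.pi * Complex.I / M) ^ k := by
  classical
  choose N hN0 hN using hu
  set n := ∏ j, N j with hn
  have hn0 : 0 < n := Finset.prod_pos fun j _ => hN0 j
  have hun : ∀ j, u j ^ n = 1 := by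
    intro j
    have h1 : N j ∣ n := Finset.dvd_prod_of_mem N (Finset.mem_univ j)
    obtain ⟨c, hc⟩ := h1
    apply Subtype.ext
    rw [Subring.coe_pow, hc, pow_mul, hN j, one_pow]
    rfl
  have : NeZero n := ⟨hn0.ne'⟩
  let H : Subgroup Zabˣ :=
    { carrier := {v | v ^ n = 1 ∧ δ ∣ (v : Zab) - 1}
      mul_mem' := by
        rintro a b ⟨ha, ha'⟩ ⟨hb, hb'⟩
        refine ⟨by rw [mul_pow, ha, hb, one_mul], ?_⟩
        have h1 : ((a * b : Zabˣ) : Zab) - 1 = a * (b - 1) + (a - 1) := by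
          push_cast
          ring
        rw [h1]
        exact dvd_add (Dvd.dvd.mul_left hb' _) ha'
      one_mem' := by
        refine ⟨one_pow _, ?_⟩
        simp
      inv_mem' := by
        rintro a ⟨ha, ha'⟩
        refine ⟨by rw [inv_pow, ha, inv_one], ?_⟩
        have h1 : ((a⁻¹ : Zabˣ) : Zab) - 1 = -((a⁻¹ : Zabˣ) : Zab) * (a - 1) := by
          have : ((a⁻¹ : Zabˣ) : Zab) * a = 1 := Units.inv_mul a
          linear_combination this
        rw [h1]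
        exact Dvd.dvd.mul_left ha' _ }
  have hH : H ≤ rootsOfUnity n Zab := fun v hv => (mem_rootsOfUnity n v).2 hv.1
  have hfin : Finite H := Finite.of_injective _ (Subgroup.inclusion_injective hH)
  obtain ⟨g, hg⟩ := IsCyclic.exists_generator (α := H)
  set M := Nat.card H with hM
  have hord : orderOf g = M := orderOf_eq_card_of_forall_mem_zpowers hg
  have hM0 : M ≠ 0 := Nat.card_pos.ne'
  let f : H →* ℂ := (Ψ : Zab →* ℂ).comp ((Units.coeHom Zab).comp H.subtype)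
  have hf : Function.Injective f := by
    intro a b hab
    apply Subtype.ext
    apply Units.ext
    exact hΨ hab
  have hprim : IsPrimitiveRoot (f g) M := by
    have := IsPrimitiveRoot.map_of_injective (IsPrimitiveRoot.orderOf g) hf
    rwa [hord] at this
  -- the given elements as elements of `H`
  have hw : ∀ j, ∃ w : H, ((w : Zabˣ) : Zab) = u j := by
    intro j
    refine ⟨⟨Units.ofPowEqOne (u j) n (hun j) hn0.ne', ?_, ?_⟩, rfl⟩
    · apply Units.ext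
      rw [Units.val_pow_eq_pow_val]
      exact hun j
    · exact hd j
  choose w hw using hw
  have hM2 : 2 ≤ M := by
    by_contra hcon
    have h1 : M = 1 := by omega
    have h2 : Subsingleton H := (Nat.card_eq_one_iff_unique.1 h1).1
    apply hj0
    rw [← hw j0, Subsingleton.elim (w j0) 1]
    rfl
  have hE := Complex.isPrimitiveRoot_exp M hM0
  obtain ⟨j, hj, hjE⟩ := hprim.eq_pow_of_pow_eq_one hE.pow_eq_one
  refine ⟨M, ((g ^ j : H) : Zabˣ), hM2, ?_, (g ^ j).2.2, ?_, ?_, ?_⟩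
  · refine ⟨n, hn0, ?_⟩
    have h1 := (g ^ j).2.1
    have h2 := congrArg (fun v : Zabˣ => ((v : Zab) : ℂ)) h1
    simpa using h2
  · intro h1
    have h2 : f (g ^ j) = 1 := by
      show Ψ (((g ^ j : H) : Zabˣ) : Zab) = 1
      rw [h1, map_one]
    rw [map_pow, hjE] at h2
    exact hE.ne_one (by omega) h2
  · show f (g ^ j) = _
    rw [map_pow, hjE]
  · intro i
    have h1 : f (w i) ^ M = 1 := by
      rw [← map_pow, hM, pow_card_eq_one', map_one]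
    have hM' : NeZero M := ⟨hM0⟩
    obtain ⟨k, hk, hkE⟩ := hE.eq_pow_of_pow_eq_one h1
    refine ⟨k, hk, ?_⟩
    rw [hkE]
    show Ψ (u i) = Ψ (((w i : H) : Zabˣ) : Zab)
    rw [hw i]

/-- A balanced representative of a power of a root of unity. -/
theorem balanced {e : ℂ} {M : ℕ} (hM : 0 < M) (he : e ^ M = 1) (k : ℤ) :
    ∃ a : ℤ, 2 * |a| ≤ M ∧ e ^ k = e ^ a := by
  have he0 : e ≠ 0 := by
    rintro rfl
    rw [zero_pow hM.ne'] at he
    exact zero_ne_one he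
  have hM' : (0 : ℤ) < M := by exact_mod_cast hM
  have h0 := Int.emod_nonneg k hM'.ne'
  have h1 := Int.emod_lt_of_pos k hM'
  have h2 : e ^ k = e ^ (k % (M : ℤ)) := by
    conv_lhs => rw [← Int.mul_ediv_add_emod k M]
    rw [zpow_add₀ he0, zpow_mul, zpow_natCast, he, one_zpow, one_mul]
  rcases le_or_gt (2 * (k % (M : ℤ))) M with h3 | h3
  · exact ⟨k % M, by rwa [abs_of_nonneg h0], h2⟩
  · refine ⟨k % M - M, ?_, ?_⟩
    · rw [abs_of_neg (by omega)]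
      omega
    · rw [h2, zpow_sub₀ he0, zpow_natCast, he, div_one]

theorem sound {F : MvPolynomial (Option ι) ℤ} {CF d : ℕ} (hC : 1 ≤ CF) (hL : LipB F CF d)
    {n : ℕ} (h : Sn F (Cexp CF d) (Dexp d) n) : ∃ a : ι → ℤ, Fv F n a = 0 := by
  obtain ⟨ζ, ζ', α, η, η', x, y, ⟨hζ, hζζ', hζ1, hα, hα0, hη⟩, h1, h2⟩ := h
  have hcζ : cj ζ = ζ' := conjZ_root hζ hζζ'
  have hζ'1 : cj ζ - 1 ≠ 0 := by
    intro h0
    apply hζ1
    have h3 : cj ζ = 1 := sub_eq_zero.1 h0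
    rw [← cj_cj ζ, h3, map_one]
  have hy : y = fun i => cj (x i) := by
    funext i
    obtain ⟨ha, hb, hc, hd⟩ := hη i
    have h3 : cj (η i) = η' i := conjZ_root ha hb
    have h4 := congrArg cj hc
    rw [map_mul, map_sub, map_sub, map_one, h3, ← hd, ← hcζ] at h4
    exact (mul_right_cancel₀ hζ'1 h4).symm
  subst hy
  subst hcζ
  have cjα2 : cj (α ^ 2) = α ^ 2 := by rw [map_pow, hα]
  have b1 : ∀ Φ : Qab →+* ℂ, 1 ≤ ‖pl Φ α‖ →
      hR F (Cexp CF d) (Dexp d) n (pl Φ ζ) (fun i => pl Φ (x i)) ≤ 3 / 4 := by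
    intro Φ hΦ
    have h3 := re_le_of_not_E (by
      rw [map_sub, map_sub, map_mul, map_mul, cj_hval, map_mul, cjα2, map_ofNat, map_ofNat,
        map_one]) h1 Φ
    rw [map_sub, map_sub, map_mul, pl_hval, map_mul, map_mul, map_ofNat, map_ofNat, map_one,
      map_pow, pl_real Φ hα] at h3
    rw [pl_real Φ hα, Complex.norm_real, Real.norm_eq_abs] at hΦ
    set A := (pl Φ α).re
    set G := hR F (Cexp CF d) (Dexp d) n (pl Φ ζ) (fun i => pl Φ (x i))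
    have h4 : (4 * (A : ℂ) ^ 2 * (G : ℂ) - 2 * (A : ℂ) ^ 2 - 1).re =
        4 * A ^ 2 * G - 2 * A ^ 2 - 1 := by
      rw [← Complex.ofReal_re (4 * A ^ 2 * G - 2 * A ^ 2 - 1)]
      push_cast
      rfl
    rw [h4] at h3
    have h5 : 1 ≤ A ^ 2 := by
      rw [← sq_abs]
      nlinarith [abs_nonneg A]
    by_contra hcon
    rw [not_le] at hcon
    nlinarith
  have b2 : ∀ Φ : Qab →+* ℂ, 1 ≤ ‖pl Φ α‖ → ∀ θ s : Zab, (θ : ℂ) ∈ rootsU →
      s * (ζ - 1) = θ - 1 → s ≠ 0 → 3 / 4 ≤ ‖pl Φ s‖ ^ 2 := by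
    intro Φ hΦ θ s hθ hs hs0
    have hθ' : θ * cj θ = 1 := by
      apply Subtype.ext
      show (θ : ℂ) * (starRingEnd ℂ) (θ : ℂ) = 1
      rw [rootsU_conj hθ, mul_inv_cancel₀ (rootsU_ne_zero hθ)]
    have hs' : cj s * (cj ζ - 1) = cj θ - 1 := by
      have := congrArg cj hs
      rwa [map_mul, map_sub, map_sub, map_one] at this
    have h3 := re_le_of_not_E (by
      rw [map_sub, map_mul, map_sub, cj_mul_cj, map_mul, cjα2, map_ofNat, map_one])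
      (h2 θ (cj θ) s (cj s) hθ hθ' hs hs' hs0) Φ
    rw [map_sub, map_mul, map_sub, pl_mul_cj, map_mul, map_ofNat, map_one,
      map_pow, pl_real Φ hα] at h3
    rw [pl_real Φ hα, Complex.norm_real, Real.norm_eq_abs] at hΦ
    set A := (pl Φ α).re
    set G := ‖pl Φ s‖ ^ 2
    have h4 : (4 * (A : ℂ) ^ 2 * (1 - (G : ℂ)) - 1).re = 4 * A ^ 2 * (1 - G) - 1 := by
      rw [← Complex.ofReal_re (4 * A ^ 2 * (1 - G) - 1)]
      push_cast
      rfl
    rw [h4] at h3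
    have h5 : 1 ≤ A ^ 2 := by
      rw [← sq_abs]
      nlinarith [abs_nonneg A]
    by_contra hcon
    rw [not_le] at hcon
    nlinarith
  obtain ⟨Φ0, hΦ0⟩ := exists_place hα0
  obtain ⟨M, γ, hM, hγ, hdγ, hγ1, hγe, hk⟩ := exists_gamma (pl Φ0) (pl_inj Φ0) (ζ - 1)
    (fun o : Option ι => o.elim ζ η) (by
      rintro (_ | i)
      · exact hζ
      · exact (hη i).1) (by
      rintro (_ | i)
      · exact dvd_refl _
      · exact ⟨x i, by
          show η i - 1 = _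
          rw [← (hη i).2.2.1, mul_comm]⟩) none hζ1
  have hM0 : 0 < M := by omega
  have hE := Complex.isPrimitiveRoot_exp M hM0.ne'
  obtain ⟨e, he⟩ : ∃ e, e = Complex.exp (2 * Real.pi * Complex.I / M) := ⟨_, rfl⟩
  have heM : e ^ M = 1 := by rw [he]; exact hE.pow_eq_one
  have heU : e ∈ rootsU := ⟨M, hM0, heM⟩
  have he0 : e ≠ 0 := rootsU_ne_zero heU
  have hconj : (starRingEnd ℂ) e = e⁻¹ := rootsU_conj heU
  obtain ⟨k, hkM, hkζ⟩ := hk none
  have hkζ' : pl Φ0 ζ = e ^ k := by rw [he]; exact hkζ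
  have hk0 : k ≠ 0 := by
    rintro rfl
    apply hζ1
    apply pl_inj Φ0
    rw [hkζ', pow_zero, map_one]
  obtain ⟨s, hs⟩ := hdγ
  have hs0 : s ≠ 0 := by
    rintro rfl
    apply hγ1
    rw [mul_zero] at hs
    exact sub_eq_zero.1 hs
  have h3 := b2 Φ0 hΦ0 γ s hγ (by rw [hs, mul_comm]) hs0
  have h4 : ‖e - 1‖ = ‖pl Φ0 s‖ * ‖e ^ k - 1‖ := by
    have := congrArg (pl Φ0) hs
    rw [map_sub, map_mul, map_sub, map_one, hγe, ← he, hkζ'] at this
    rw [this, norm_mul, mul_comm]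
  have h5 : 3 * ‖e ^ k - 1‖ ^ 2 ≤ 4 * ‖e - 1‖ ^ 2 := by
    rw [h4, mul_pow]
    nlinarith [sq_nonneg ‖e ^ k - 1‖]
  have h6 : k = 1 ∨ k = M - 1 := by
    rw [he] at h5
    exact Pool.Agent.Helper88.ZL.trig M k (by omega) hkM h5
  obtain ⟨Φ, hΦα, hΦζ, hΦη⟩ : ∃ Φ : Qab →+* ℂ, 1 ≤ ‖pl Φ α‖ ∧ pl Φ ζ = e ∧
      ∀ i, ∃ m : ℤ, pl Φ (η i) = e ^ m := by
    rcases h6 with h6 | h6
    · refine ⟨Φ0, hΦ0, by rw [hkζ', h6, pow_one], fun i => ?_⟩
      obtain ⟨m, -, hm⟩ := hk (some i)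
      exact ⟨m, by rw [zpow_natCast, he]; exact hm⟩
    · refine ⟨cpl Φ0, ?_, ?_, fun i => ?_⟩
      · rw [pl_cpl]
        have : ‖(starRingEnd ℂ) (pl Φ0 α)‖ = ‖pl Φ0 α‖ := RCLike.norm_conj _
        rwa [this]
      · rw [pl_cpl, hkζ', map_pow, hconj, h6, inv_pow]
        rw [inv_eq_iff_eq_inv]
        apply eq_inv_of_mul_eq_one_left
        rw [← pow_succ, Nat.sub_add_cancel (by omega), heM]
      · obtain ⟨m, -, hm⟩ := hk (some i)
        refine ⟨-(m : ℤ), ?_⟩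
        have hm' : pl Φ0 (η i) = e ^ m := by rw [he]; exact hm
        rw [pl_cpl, hm', map_pow, hconj, zpow_neg, zpow_natCast, inv_pow]
  have h7 : ∀ i, ∃ a : ℤ, 2 * |a| ≤ M ∧ pl Φ (η i) = e ^ a := by
    intro i
    obtain ⟨m, hm⟩ := hΦη i
    rw [hm]
    exact balanced hM0 heM m
  choose a ha ha' using h7
  refine ⟨a, anal_sound hC hL hM ha (z := e) he (X := fun i => pl Φ (x i)) (fun i => ?_) ?_⟩
  · have h8 := congrArg (pl Φ) (hη i).2.2.1
    rw [map_mul, map_sub, map_sub, map_one, hΦζ, ha' i] at h8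
    exact h8
  · have h8 := b1 Φ hΦα
    rw [hΦζ] at h8
    exact h8

end Pool.Agent.Helper60.ZEA
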