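import Pool.Agent.Helper60.ZEA.Complete
import Pool.Agent.Helper81.DPRM

/-!
Recursively enumerable sets are `∃∀`-definable over `ℤ^ab`.
-/

namespace Pool.Agent.Helper60.ZEA

open Pool.Agent.Helper63.ZabUnd MvPolynomial

section calculus

variable {α β γ : Type}

theorem PF.nat (n : ℕ) : PF (fun _ : α → Zab => (n : Zab)) := ⟨(n : MvPolynomial α ℤ), fun v => by
  rw [map_natCast]⟩

theorem PF.aev {δ : Type} (F : MvPolynomial δ ℤ) {g : δ → (α → Zab) → Zab}
    (hg : ∀ c, PF (g c)) : PF (fun v => aeval (fun c => g c v) F) :=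
  PF.subst (f := fun w : δ → Zab => aeval w F) ⟨F, fun _ => rfl⟩ hg

theorem Dio.or {P Q : (α → Zab) → Prop} (hP : Dio P) (hQ : Dio Q) : Dio (fun v => P v ∨ Q v) := by
  obtain ⟨β, hβ, p, hp⟩ := hP
  obtain ⟨γ, hγ, q, hq⟩ := hQ
  refine ⟨β ⊕ γ, inferInstance, rename (Sum.map id Sum.inl) p * rename (Sum.map id Sum.inr) q,
    fun v => ?_⟩
  have h : ∀ (w : β ⊕ γ → Zab),
      aeval (Sum.elim v w) (rename (Sum.map id Sum.inl) p * rename (Sum.map id Sum.inr) q) =
      aeval (Sum.elim v (fun b => w (Sum.inl b))) p *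
        aeval (Sum.elim v (fun c => w (Sum.inr c))) q := by
    intro w
    rw [map_mul, aeval_rename, aeval_rename]
    have e1 : (Sum.elim v w) ∘ (Sum.map id Sum.inl) = Sum.elim v (fun b => w (Sum.inl b)) := by
      funext x
      rcases x with x | x <;> rfl
    have e2 : (Sum.elim v w) ∘ (Sum.map id Sum.inr) = Sum.elim v (fun c => w (Sum.inr c)) := by
      funext x
      rcases x with x | x <;> rfl
    rw [e1, e2]
  constructor
  · rintro (h1 | h1)
    · obtain ⟨w, hw⟩ := (hp _).1 h1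
      refine ⟨Sum.elim w (fun _ => 0), ?_⟩
      rw [h]
      have e1 : (fun b => (Sum.elim w (fun _ => (0 : Zab)) : β ⊕ γ → Zab) (Sum.inl b)) = w := rfl
      rw [e1, hw, zero_mul]
    · obtain ⟨w, hw⟩ := (hq _).1 h1
      refine ⟨Sum.elim (fun _ => 0) w, ?_⟩
      rw [h]
      have e1 : (fun b => (Sum.elim (fun _ => (0 : Zab)) w : β ⊕ γ → Zab) (Sum.inr b)) = w := rfl
      rw [e1, hw, mul_zero]
  · rintro ⟨w, hw⟩
    rw [h] at hw
    rcases mul_eq_zero.1 hw with h1 | h1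
    · exact Or.inl ((hp _).2 ⟨_, h1⟩)
    · exact Or.inr ((hq _).2 ⟨_, h1⟩)

theorem Dio.forall_finite {κ : Type} [Finite κ] {P : κ → (α → Zab) → Prop} (h : ∀ i, Dio (P i)) :
    Dio (fun v => ∀ i, P i v) := by
  obtain ⟨n, ⟨e⟩⟩ := Finite.exists_equiv_fin κ
  refine (Dio.forall_fin (P := fun j => P (e.symm j)) fun j => h _).congr fun v => ?_
  constructor
  · intro h i
    have := h (e i)
    rwa [e.symm_apply_apply] at this
  · intro h j
    exact h _

/-- `P` is given by a formula consisting of existential quantifiers, universal quantifiers and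
an inequation. -/
def EA (P : (α → Zab) → Prop) : Prop :=
  ∃ (β γ : Type) (_ : Finite β) (_ : Finite γ) (p : MvPolynomial (α ⊕ (β ⊕ γ)) ℤ),
    ∀ v, P v ↔ ∃ w : β → Zab, ∀ u : γ → Zab, aeval (Sum.elim v (Sum.elim w u)) p ≠ 0

theorem EA.congr {P Q : (α → Zab) → Prop} (hP : EA P) (h : ∀ v, P v ↔ Q v) : EA Q := by
  obtain ⟨β, γ, hβ, hγ, p, hp⟩ := hP
  exact ⟨β, γ, hβ, hγ, p, fun v => (h v).symm.trans (hp v)⟩

theorem EA.main [Finite β] [Finite γ] {A : (α ⊕ β → Zab) → Prop} (hA : Dio A)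
    {B : ((α ⊕ β) ⊕ γ → Zab) → Prop} (hB : Dio B) :
    EA (fun v : α → Zab => ∃ w : β → Zab, A (Sum.elim v w) ∧
      ∀ u : γ → Zab, ¬ B (Sum.elim (Sum.elim v w) u)) := by
  obtain ⟨β', hβ', p, hp⟩ := hA
  obtain ⟨γ', hγ', q, hq⟩ := hB
  -- the inclusions of the variables
  let ip : (α ⊕ β) ⊕ β' → α ⊕ ((β ⊕ β') ⊕ ((γ ⊕ γ') ⊕ Fin 3)) :=
    Sum.elim (Sum.elim Sum.inl (fun b => Sum.inr (Sum.inl (Sum.inl b))))
      (fun b => Sum.inr (Sum.inl (Sum.inr b)))
  let iq : ((α ⊕ β) ⊕ γ) ⊕ γ' → α ⊕ ((β ⊕ β') ⊕ ((γ ⊕ γ') ⊕ Fin 3)) :=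
    Sum.elim (Sum.elim (Sum.elim Sum.inl (fun b => Sum.inr (Sum.inl (Sum.inl b))))
      (fun c => Sum.inr (Sum.inr (Sum.inl (Sum.inl c)))))
      (fun c => Sum.inr (Sum.inr (Sum.inl (Sum.inr c))))
  let t : Fin 3 → MvPolynomial (α ⊕ ((β ⊕ β') ⊕ ((γ ⊕ γ') ⊕ Fin 3))) ℤ :=
    fun i => X (Sum.inr (Sum.inr (Sum.inr i)))
  refine ⟨β ⊕ β', (γ ⊕ γ') ⊕ Fin 3, inferInstance, inferInstance,
    (rename ip p * t 0 - (2 * t 1 - 1) * (3 * t 2 - 1)) * rename iq q, fun v => ?_⟩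
  have h : ∀ (w : β → Zab) (w' : β' → Zab) (u : γ → Zab) (u' : γ' → Zab) (s : Fin 3 → Zab),
      aeval (Sum.elim v (Sum.elim (Sum.elim w w') (Sum.elim (Sum.elim u u') s)))
        ((rename ip p * t 0 - (2 * t 1 - 1) * (3 * t 2 - 1)) * rename iq q) =
      (aeval (Sum.elim (Sum.elim v w) w') p * s 0 - (2 * s 1 - 1) * (3 * s 2 - 1)) *
        aeval (Sum.elim (Sum.elim (Sum.elim v w) u) u') q := by
    intro w w' u u' s
    rw [map_mul, map_sub, map_mul, map_mul, map_sub, map_sub, map_mul, map_mul, aeval_rename,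
      aeval_rename, map_one, map_ofNat, map_ofNat]
    have e1 : (Sum.elim v (Sum.elim (Sum.elim w w') (Sum.elim (Sum.elim u u') s))) ∘ ip =
        Sum.elim (Sum.elim v w) w' := by
      funext x
      rcases x with (x | x) | x <;> rfl
    have e2 : (Sum.elim v (Sum.elim (Sum.elim w w') (Sum.elim (Sum.elim u u') s))) ∘ iq =
        Sum.elim (Sum.elim (Sum.elim v w) u) u' := by
      funext x
      rcases x with ((x | x) | x) | x <;> rfl
    have e3 : ∀ i, aeval (Sum.elim v (Sum.elim (Sum.elim w w') (Sum.elim (Sum.elim u u') s)))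
        (t i) = s i := by
      intro i
      show aeval _ (X _) = _
      rw [aeval_X]
      rfl
    rw [e1, e2, e3, e3, e3]
  constructor
  · rintro ⟨w, h1, h2⟩
    obtain ⟨w', hw'⟩ := (hp _).1 h1
    refine ⟨Sum.elim w w', fun u => ?_⟩
    obtain ⟨u1, u2, s, rfl⟩ : ∃ (u1 : γ → Zab) (u2 : γ' → Zab) (s : Fin 3 → Zab),
        u = Sum.elim (Sum.elim u1 u2) s := by
      refine ⟨fun c => u (Sum.inl (Sum.inl c)), fun c => u (Sum.inl (Sum.inr c)),
        fun c => u (Sum.inr c), ?_⟩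
      funext x
      rcases x with (x | x) | x <;> rfl
    rw [h, hw']
    refine mul_ne_zero ?_ ?_
    · intro h3
      exact (ne_zero_iff 0).2 ⟨s 0, s 1, s 2, h3⟩ rfl
    · intro h3
      exact h2 u1 ((hq _).2 ⟨u2, h3⟩)
  · rintro ⟨w, hw⟩
    obtain ⟨w1, w2, rfl⟩ : ∃ (w1 : β → Zab) (w2 : β' → Zab), w = Sum.elim w1 w2 := by
      refine ⟨fun c => w (Sum.inl c), fun c => w (Sum.inr c), ?_⟩
      funext x
      rcases x with x | x <;> rfl
    refine ⟨w1, (hp _).2 ⟨w2, ?_⟩, fun u hu => ?_⟩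
    · by_contra h3
      obtain ⟨s, t, t', h4⟩ := (ne_zero_iff _).1 h3
      apply hw (Sum.elim (Sum.elim (fun _ => 0) (fun _ => 0)) ![s, t, t'])
      rw [h]
      simp only [Matrix.cons_val_zero, Matrix.cons_val_one, Matrix.cons_val]
      rw [h4, zero_mul]
    · obtain ⟨u', hu'⟩ := (hq _).1 hu
      apply hw (Sum.elim (Sum.elim u u') (fun _ => 0))
      rw [h, hu', mul_zero]

end calculus

section sentence

variable {ι : Type} [Fintype ι]

theorem dio_Av {κ : Type} {z z' a : (κ → Zab) → Zab} {e e' x y : ι → (κ → Zab) → Zab}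
    (hz : PF z) (hz' : PF z') (ha : PF a) (he : ∀ i, PF (e i)) (he' : ∀ i, PF (e' i))
    (hx : ∀ i, PF (x i)) (hy : ∀ i, PF (y i)) :
    Dio (fun v => Av (z v) (z' v) (a v) (fun i => e i v) (fun i => e' i v) (fun i => x i v)
      (fun i => y i v)) := by
  unfold Av
  refine (Dio.mu hz).and <| (Dio.eq (hz.mul hz') PF.one).and <| (Dio.ne hz PF.one).and <|
    (dio_real ha).and <| (Dio.ne ha PF.zero).and <| Dio.forall_finite fun i => ?_
  exact (Dio.mu (he i)).and <| (Dio.eq ((he i).mul (he' i)) PF.one).and <|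
    (Dio.eq ((hx i).mul (hz.sub PF.one)) ((he i).sub PF.one)).and <|
    (Dio.eq ((hy i).mul (hz'.sub PF.one)) ((he' i).sub PF.one))

/-- The element `h` with a variable in place of `n`. -/
noncomputable def hvalG (F : MvPolynomial (Option ι) ℤ) (C D : ℕ) (ν ζ ζ' : Zab)
    (x y : ι → Zab) : Zab :=
  C * (1 + ν ^ 2 + ∑ i, x i * y i) ^ D * ((ζ - 1) * (ζ' - 1)) +
    8 * (aeval (fun o : Option ι => o.elim ν x) F * aeval (fun o : Option ι => o.elim ν y) F)

theorem pf_hval {κ : Type} (F : MvPolynomial (Option ι) ℤ) (C D : ℕ)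
    {n z z' : (κ → Zab) → Zab} {x y : ι → (κ → Zab) → Zab}
    (hn : PF n) (hz : PF z) (hz' : PF z') (hx : ∀ i, PF (x i)) (hy : ∀ i, PF (y i)) :
    PF (fun v => hvalG F C D (n v) (z v) (z' v) (fun i => x i v) (fun i => y i v)) := by
  unfold hvalG
  have h1 : ∀ x : ι → (κ → Zab) → Zab, (∀ i, PF (x i)) →
      PF (fun v => aeval (fun o : Option ι => o.elim (n v) (fun i => x i v)) F) := by
    intro x hx
    have h2 := PF.aev F (g := fun o : Option ι => o.elim n x) (by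
      rintro (_ | i)
      · exact hn
      · exact hx i)
    have h3 : (fun v => aeval (fun o : Option ι => o.elim (n v) (fun i => x i v)) F) =
        fun v => aeval (fun o : Option ι => (o.elim n x) v) F := by
      funext v
      refine congrArg (fun g : MvPolynomial (Option ι) ℤ →ₐ[ℤ] Zab => g F) (congrArg aeval ?_)
      funext o
      cases o <;> rfl
    rw [h3]
    exact h2
  refine (((PF.nat C).mul ((((PF.one.add (hn.pow 2))).add
    (PF.sum _ fun i => (hx i).mul (hy i))).pow D)).mul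
    ((hz.sub PF.one).mul (hz'.sub PF.one))).add ((PF.ofNat 8).mul ((h1 x hx).mul (h1 y hy)))

/-- The variables of the existential quantifiers. -/
abbrev VE (ι : Type) : Type := Fin 3 ⊕ (Fin 4 × ι)

/-- The sentence with a variable in place of `n`. -/
theorem ea_sentence (F : MvPolynomial (Option ι) ℤ) (C D : ℕ) :
    ∃ P : (Unit → Zab) → Prop, EA P ∧ ∀ n : ℕ, P (fun _ => (n : Zab)) ↔ Sn F C D n := by
  have V := fun a : (Unit ⊕ VE ι) ⊕ Fin 4 => PF.var a
  have W := fun a : Unit ⊕ VE ι => PF.var a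
  let A : (Unit ⊕ VE ι → Zab) → Prop := fun v =>
    Av (v (Sum.inr (Sum.inl 0))) (v (Sum.inr (Sum.inl 1))) (v (Sum.inr (Sum.inl 2)))
      (fun i => v (Sum.inr (Sum.inr (0, i)))) (fun i => v (Sum.inr (Sum.inr (1, i))))
      (fun i => v (Sum.inr (Sum.inr (2, i)))) (fun i => v (Sum.inr (Sum.inr (3, i))))
  have hA : Dio A := dio_Av (W _) (W _) (W _) (fun i => W _) (fun i => W _) (fun i => W _)
    (fun i => W _)
  let B : ((Unit ⊕ VE ι) ⊕ Fin 4 → Zab) → Prop := fun v =>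
    E (4 * (v (Sum.inl (Sum.inr (Sum.inl 2)))) ^ 2 *
      hvalG F C D (v (Sum.inl (Sum.inl ()))) (v (Sum.inl (Sum.inr (Sum.inl 0))))
        (v (Sum.inl (Sum.inr (Sum.inl 1)))) (fun i => v (Sum.inl (Sum.inr (Sum.inr (2, i)))))
        (fun i => v (Sum.inl (Sum.inr (Sum.inr (3, i))))) -
      2 * (v (Sum.inl (Sum.inr (Sum.inl 2)))) ^ 2 - 1) ∨
    ((v (Sum.inr 0) : ℂ) ∈ rootsU ∧ v (Sum.inr 0) * v (Sum.inr 1) = 1 ∧
      v (Sum.inr 2) * (v (Sum.inl (Sum.inr (Sum.inl 0))) - 1) = v (Sum.inr 0) - 1 ∧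
      v (Sum.inr 3) * (v (Sum.inl (Sum.inr (Sum.inl 1))) - 1) = v (Sum.inr 1) - 1 ∧
      v (Sum.inr 2) ≠ 0 ∧
      E (4 * (v (Sum.inl (Sum.inr (Sum.inl 2)))) ^ 2 *
        (1 - v (Sum.inr 2) * v (Sum.inr 3)) - 1))
  have hB : Dio B := by
    refine Dio.or (dio_E ?_) ?_
    · exact (((PF.ofNat 4).mul ((V _).pow 2)).mul (pf_hval F C D (V _) (V _) (V _)
        (fun i => V _) (fun i => V _))).sub ((PF.ofNat 2).mul ((V _).pow 2)) |>.sub PF.one
    · refine (Dio.mu (V _)).and <| (Dio.eq ((V _).mul (V _)) PF.one).and <|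
        (Dio.eq ((V _).mul ((V _).sub PF.one)) ((V _).sub PF.one)).and <|
        (Dio.eq ((V _).mul ((V _).sub PF.one)) ((V _).sub PF.one)).and <|
        (Dio.ne (V _) PF.zero).and <| dio_E ?_
      exact (((PF.ofNat 4).mul ((V _).pow 2)).mul (PF.one.sub ((V _).mul (V _)))).sub PF.one
  refine ⟨_, EA.main hA hB, fun n => ?_⟩
  constructor
  · rintro ⟨w, h1, h2⟩
    refine ⟨w (Sum.inl 0), w (Sum.inl 1), w (Sum.inl 2), fun i => w (Sum.inr (0, i)),
      fun i => w (Sum.inr (1, i)), fun i => w (Sum.inr (2, i)), fun i => w (Sum.inr (3, i)),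
      h1, fun h3 => ?_, fun θ θ' s s' hθ hθθ' hs hs' hs0 h3 => ?_⟩
    · exact h2 (fun _ => 0) (Or.inl h3)
    · exact h2 ![θ, θ', s, s'] (Or.inr ⟨hθ, hθθ', hs, hs', hs0, h3⟩)
  · rintro ⟨ζ, ζ', α, η, η', x, y, h1, h2, h3⟩
    refine ⟨Sum.elim ![ζ, ζ', α] (fun p => (![η, η', x, y] p.1) p.2), h1, fun u hu => ?_⟩
    rcases hu with h4 | ⟨hθ, hθθ', hs, hs', hs0, h4⟩
    · exact h2 h4
    · exact h3 _ _ _ _ hθ hθθ' hs hs' hs0 h4

end sentence

/-- From natural number solutions to integral solutions. -/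
theorem four_squares {k : ℕ} (p : MvPolynomial (Option (Fin k)) ℤ) :
    ∃ F : MvPolynomial (Option (Fin k × Fin 4)) ℤ, ∀ n : ℕ,
      (∃ t : Fin k → ℕ, eval (fun i => Option.elim i (n : ℤ) fun j => (t j : ℤ)) p = 0) ↔
      ∃ a : Fin k × Fin 4 → ℤ, Fv F n a = 0 := by
  refine ⟨bind₁ (fun o : Option (Fin k) => o.elim (X none) (fun j => ∑ m : Fin 4,
    (X (some (j, m))) ^ 2)) p, fun n => ?_⟩
  have h : ∀ a : Fin k × Fin 4 → ℤ, Fv (bind₁ (fun o : Option (Fin k) => o.elim (X none)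
      (fun j => ∑ m : Fin 4, (X (some (j, m))) ^ 2)) p) n a =
      eval (fun i => Option.elim i (n : ℤ) fun j => ∑ m : Fin 4, a (j, m) ^ 2) p := by
    intro a
    unfold Fv
    rw [aeval_bind₁, MvPolynomial.aeval_eq_eval]
    refine congrArg (fun g => eval g p) ?_
    funext o
    cases o with
    | none =>
      simp only [Option.elim_none, aeval_X]
    | some j =>
      simp only [Option.elim_some, map_sum, map_pow, aeval_X]
  constructor
  · rintro ⟨t, ht⟩
    have h1 : ∀ j, ∃ b : Fin 4 → ℤ, (t j : ℤ) = ∑ m : Fin 4, b m ^ 2 := by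
      intro j
      obtain ⟨a, b, c, d, h2⟩ := Nat.sum_four_squares (t j)
      refine ⟨![(a : ℤ), b, c, d], ?_⟩
      rw [← h2]
      simp [Fin.sum_univ_four]
    choose b hb using h1
    refine ⟨fun q => b q.1 q.2, ?_⟩
    rw [h, ← ht]
    refine congrArg (fun g => eval g p) ?_
    funext o
    cases o with
    | none => rfl
    | some j => exact (hb j).symm
  · rintro ⟨a, ha⟩
    refine ⟨fun j => (∑ m : Fin 4, a (j, m) ^ 2).toNat, ?_⟩
    rw [h] at ha
    rw [← ha]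
    refine congrArg (fun g => eval g p) ?_
    funext o
    cases o with
    | none => rfl
    | some j => exact Int.toNat_of_nonneg (Finset.sum_nonneg fun m _ => sq_nonneg _)

/-- Every recursively enumerable set of natural numbers is defined over `ℤ^ab` by a formula
consisting of existential quantifiers, universal quantifiers and an inequation. -/
theorem re_ea {W : ℕ → Prop} (hW : REPred W) :
    ∃ (k m : ℕ) (P : MvPolynomial (Option (Fin k ⊕ Fin m)) ℤ), ∀ n : ℕ,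
      W n ↔ ∃ x : Fin k → Zab, ∀ y : Fin m → Zab,
        aeval (fun o : Option (Fin k ⊕ Fin m) => o.elim (n : Zab) (Sum.elim x y)) P ≠ 0 := by
  obtain ⟨k, p, hp⟩ := Pool.Agent.Helper81.dprm_mv hW
  obtain ⟨F, hF⟩ := four_squares p
  obtain ⟨CF, d, hC, hL⟩ := exists_LipB F
  obtain ⟨Q, ⟨β, γ, hβ, hγ, q, hq⟩, hQ⟩ := ea_sentence F (Cexp CF d) (Dexp d)
  obtain ⟨k', ⟨e⟩⟩ := Finite.exists_equiv_fin β
  obtain ⟨m', ⟨f⟩⟩ := Finite.exists_equiv_fin γ
  refine ⟨k', m', rename (Sum.elim (fun _ => none) (fun s => some (Sum.map e f s))) q,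
    fun n => ?_⟩
  have h : ∀ (x : Fin k' → Zab) (y : Fin m' → Zab),
      aeval (fun o : Option (Fin k' ⊕ Fin m') => o.elim (n : Zab) (Sum.elim x y))
        (rename (Sum.elim (fun _ => none) (fun s => some (Sum.map e f s))) q) =
      aeval (Sum.elim (fun _ => (n : Zab)) (Sum.elim (x ∘ e) (y ∘ f))) q := by
    intro x y
    rw [aeval_rename]
    refine congrArg (fun g : MvPolynomial (Unit ⊕ (β ⊕ γ)) ℤ →ₐ[ℤ] Zab => g q)
      (congrArg aeval ?_)
    funext s
    rcases s with s | s | s <;> rfl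
  have h1 : W n ↔ Sn F (Cexp CF d) (Dexp d) n := by
    rw [hp, hF]
    constructor
    · rintro ⟨a, ha⟩
      exact complete hL _ _ ha
    · intro h
      exact sound hC hL h
  rw [h1, ← hQ, hq]
  constructor
  · rintro ⟨w, hw⟩
    refine ⟨w ∘ e.symm, fun y => ?_⟩
    rw [h]
    have h2 : (w ∘ e.symm) ∘ e = w := by
      funext b
      simp
    rw [h2]
    exact hw _
  · rintro ⟨x, hx⟩
    refine ⟨x ∘ e, fun u => ?_⟩
    have h2 := hx (u ∘ f.symm)
    rw [h] at h2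
    have h3 : (u ∘ f.symm) ∘ f = u := by
      funext b
      simp
    rwa [h3] at h2

end Pool.Agent.Helper60.ZEA
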